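import Pool.Agent.N929.EX.Stm

/-!
# Exchange of bumps between two windows of a self-avoiding walk (project EY)

Definitions and statements (as `Prop`s) of the tasks.  The walk consists of a first piece (times
`0, ..., p`), a window, a middle piece, a second window and a last piece.  The slots strictly
inside a window `(a, b)` of times are `DD L 1 (a, b) w`, the occupied ones `OO L 1 (a, b) w`.
-/

set_option autoImplicit false
set_option linter.unusedVariables false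

namespace Pool.Agent.N929.EY

open Pool.Agent.H976R2 Pool.Agent.H976R2.Dir Finset
open Pool.Agent.N929.EX
open scoped Classical

noncomputable section

/-- `w'` is obtained from the walk `w` with `n` steps by occupying the slot `p` inside the window
`(a, b)` of times -/
structure WStep (L : Finset (ℤ × ℤ)) (a b n : ℕ) (w : List Dir) (p : ℤ × ℤ) (w' : List Dir) :
    Prop where
  sw : w ∈ SW n
  sw' : w' ∈ SW (n + 2)
  mem : p ∈ DD L 1 (a, b) w
  nm : p ∉ OO L 1 (a, b) w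
  lo : ∀ t, t ≤ a → Lip.PP w' t = Lip.PP w t
  hi : ∀ t, b ≤ t → t ≤ n → Lip.PP w' (t + 2) = Lip.PP w t
  dd : DD L 1 (a, b + 2) w' = DD L 1 (a, b) w
  os : OO L 1 (a, b + 2) w' = insert p (OO L 1 (a, b) w)
  dlo : ∀ c d, c ≤ d → d ≤ a → DD L 1 (c, d) w' = DD L 1 (c, d) w
  olo : ∀ c d, c ≤ d → d ≤ a → OO L 1 (c, d) w' = OO L 1 (c, d) w
  dhi : ∀ c d, b ≤ c → c ≤ d → d ≤ n → DD L 1 (c + 2, d + 2) w' = DD L 1 (c, d) w
  ohi : ∀ c d, b ≤ c → c ≤ d → d ≤ n → OO L 1 (c + 2, d + 2) w' = OO L 1 (c, d) w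

/-- WT: occupying and freeing one slot in a window -/
def S_WT : Prop :=
  ∀ L : Finset (ℤ × ℤ), CF L → ∃ f g : List Dir → (ℤ × ℤ) → List Dir,
    (∀ (a b n : ℕ) (w : List Dir) (p : ℤ × ℤ), a ≤ b → b ≤ n → w ∈ SW n →
      p ∈ DD L 1 (a, b) w → p ∉ OO L 1 (a, b) w →
      WStep L a b n w p (f w p) ∧ g (f w p) p = w) ∧
    (∀ (a b n : ℕ) (w' : List Dir) (p : ℤ × ℤ), a ≤ b → b ≤ n → w' ∈ SW (n + 2) →
      p ∈ OO L 1 (a, b + 2) w' → WStep L a b n (g w' p) p w' ∧ f (g w' p) p = w')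

/-- the piece of the walk from the time `q` to the time `q + m` (as positions, constant after
`m`) -/
def pc (q m : ℕ) (w : List Dir) : ℕ → ℤ × ℤ := fun j => Lip.PP w (q + min j m)

/-- the three pieces of a walk: `[0, p]`, `[q, q + m]` and `[r, r + l]` -/
def tr (p q m r l : ℕ) (w : List Dir) : (ℕ → ℤ × ℤ) × (ℕ → ℤ × ℤ) × (ℕ → ℤ × ℤ) :=
  (pc 0 p w, pc q m w, pc r l w)

/-- the walks with the three given pieces, the given slots in the two windows, which have lengths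
`u + 2 * i` and `v + 2 * j`, where `i` and `j` are the numbers of occupied slots -/
def HW (L : Finset (ℤ × ℤ)) (X : (ℕ → ℤ × ℤ) × (ℕ → ℤ × ℤ) × (ℕ → ℤ × ℤ))
    (D D' : Finset (ℤ × ℤ)) (p u m v l i j : ℕ) : Finset (List Dir) :=
  (SW (p + (u + 2 * i) + m + (v + 2 * j) + l)).filter (fun w =>
    tr p (p + (u + 2 * i)) m (p + (u + 2 * i) + m + (v + 2 * j)) l w = X ∧
    DD L 1 (p, p + (u + 2 * i)) w = D ∧
    DD L 1 (p + (u + 2 * i) + m, p + (u + 2 * i) + m + (v + 2 * j)) w = D' ∧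
    (OO L 1 (p, p + (u + 2 * i)) w).card = i ∧
    (OO L 1 (p + (u + 2 * i) + m, p + (u + 2 * i) + m + (v + 2 * j)) w).card = j)

/-- CLW: the sizes of the classes -/
def S_CLW : Prop :=
  ∀ L : Finset (ℤ × ℤ), CF L → ∀ (X : (ℕ → ℤ × ℤ) × (ℕ → ℤ × ℤ) × (ℕ → ℤ × ℤ))
    (D D' : Finset (ℤ × ℤ)) (p u m v l i j : ℕ),
    (HW L X D D' p u m v l i j).card =
      D.card.choose i * D'.card.choose j * (HW L X D D' p u m v l 0 0).card

/-- SM: the smoothing inequality for pieces: the middle piece is smoothed in time -/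
def S_SM : Prop :=
  ∀ K : ℕ, ∃ A C : ℝ, 0 < A ∧ 0 < C ∧ ∀ n p u m v l a : ℕ, n = p + u + m + v + l → 2 ≤ n →
    A * Real.log n ^ 2 ≤ u → A * Real.log n ^ 2 ≤ v →
    C * (a : ℝ) ^ 2 ≤ u → C * (a : ℝ) ^ 2 ≤ v →
    ∀ Z : Set ((ℕ → ℤ × ℤ) × (ℕ → ℤ × ℤ) × (ℕ → ℤ × ℤ)),
      (((SW n).filter (fun w => tr p (p + u) m (p + u + m + v) l w ∈ Z)).card : ℝ) ≤
        C / ((a : ℝ) + 1) * ∑ i ∈ range (2 * a + 1),
          (((SW n).filter (fun w =>
            tr p (p + u + 2 * i - 2 * a) m (p + u + m + v) l w ∈ Z)).card : ℝ) +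
        ((SW n).card : ℝ) / (n : ℝ) ^ K

/-- KT: bounds for the laws of the positions at `k` times, the gaps between the times (and `0` and
`n`) being the `g j` -/
def S_KT : Prop :=
  ∀ k : ℕ, ∃ A C : ℝ, 0 < A ∧ 0 < C ∧ ∀ (n : ℕ) (g : Fin (k + 1) → ℕ), n = ∑ j, g j → 2 ≤ n →
    (∀ j, A * Real.log n ^ 2 ≤ g j) → ∀ x : Fin k → ℤ × ℤ,
      (∏ j, Real.sqrt (g j)) * (((SW n).filter (fun w => ∀ i : Fin k,
        Lip.PP w (∑ j ∈ univ.filter (fun j : Fin (k + 1) => (j : ℕ) ≤ i), g j) = x i)).card : ℝ) ≤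
      C * Real.sqrt n * ((SW n).card : ℝ)

/-- SEL2: a finite set of families without common corners such that every large set of squares is
hit well by most of them -/
def S_SEL2 : Prop :=
  ∀ N : ℕ, ∃ (ι : Type) (_ : Fintype ι) (_ : Nonempty ι) (Λ : ι → Finset (ℤ × ℤ)),
    (∀ i, CF (Λ i)) ∧
    ∀ P : Finset (ℤ × ℤ), (∀ p ∈ P, |p.1| ≤ N ∧ |p.2| ≤ N) →
      P.card * (univ.filter (fun i => 1024 * (Λ i ∩ P).card < P.card)).card ≤
        100000 * Fintype.card ι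

/-- MG: merging in total variation under a time shift of the middle piece, at fixed length -/
def S_MG : Prop :=
  ∃ A C : ℝ, 0 < A ∧ 0 < C ∧ ∀ n p u m v l : ℕ, n = p + u + m + v + l → 2 ≤ n →
    A * Real.log n ^ 2 ≤ u → A * Real.log n ^ 2 ≤ v →
    ∀ Z : Set ((ℕ → ℤ × ℤ) × (ℕ → ℤ × ℤ) × (ℕ → ℤ × ℤ)),
      |(((SW n).filter (fun w => tr p (p + u) m (p + u + m + v) l w ∈ Z)).card : ℝ) -
        (((SW n).filter (fun w => tr p (p + u + 2) m (p + u + m + v) l w ∈ Z)).card : ℝ)| ≤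
      C * (1 / Real.sqrt u + 1 / Real.sqrt v) * ((SW n).card : ℝ)

/-- the walk has a contact at the times `i`, `j` -/
def Ct (i j : ℕ) (w : List Dir) : Prop :=
  |(Lip.PP w j).1 - (Lip.PP w i).1| + |(Lip.PP w j).2 - (Lip.PP w i).2| = 1

/-- CT: contacts in the bulk at two given times `i`, `i + m`, both at least `l` away from the
ends -/
def S_CT : Prop :=
  ∃ A C : ℝ, 0 < A ∧ 0 < C ∧ ∀ n i m l : ℕ, 2 ≤ n → A * Real.log n ^ 2 ≤ m → m ≤ l → l ≤ i →
    i + m + l ≤ n →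
    Real.sqrt m * min (m : ℝ) (Real.sqrt l) * (((SW n).filter (fun w => Ct i (i + m) w)).card : ℝ) ≤
      C * Real.log n ^ 2 * ((SW n).card : ℝ)

/-- CA: mean number of contacts with a given time difference -/
def S_CA : Prop :=
  ∃ A C : ℝ, 0 < A ∧ 0 < C ∧ ∀ n m : ℕ, 2 ≤ n → A * Real.log n ^ 2 ≤ m → 2 * m ≤ n →
    ∑ i ∈ range (n - m + 1), (((SW n).filter (fun w => Ct i (i + m) w)).card : ℝ) ≤
      C * Real.log n ^ 2 * (1 + (n : ℝ) / (m * Real.sqrt m)) * ((SW n).card : ℝ)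

end

end Pool.Agent.N929.EY
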