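import Pool.Agent.N929.EY.Stm
import Pool.Agent.N929.EX.MI

/-!
# Windows: most families have many free and many occupied slots in a long window
-/

set_option autoImplicit false
set_option linter.unusedVariables false

namespace Pool.Agent.N929.EY

open Pool.Agent.H976R2 Pool.Agent.H976R2.Dir Finset
open Pool.Agent.N929.EX
open scoped Classical

noncomputable section

/-- few walks have few bumps in a window -/
theorem few_win (hfew : S_FEW) : ∃ A D : ℝ, 0 < A ∧ 0 < D ∧ ∀ (n a b : ℕ), 2 ≤ n →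
    a ≤ b → b ≤ n → A * Real.log n ^ 2 ≤ (b : ℝ) - a →
    (((SW n).filter (fun w => 4000 * BW (a + 1) (n - b + 2) w < b - a)).card : ℝ) ≤
      D * Real.exp (-(((b - a : ℕ) : ℝ) / 5000)) * ((SW n).card : ℝ) := by
  obtain ⟨A, D, hA, hD, h⟩ := hfew
  refine ⟨A + 20, D, by positivity, hD, fun n a b hn hab hbn hg => ?_⟩
  have hn' : (2 : ℝ) ≤ n := by exact_mod_cast hn
  have hlog : (0.69 : ℝ) ≤ Real.log n := by
    have := Real.log_two_gt_d9
    have h3 : Real.log 2 ≤ Real.log n := Real.log_le_log (by norm_num) hn'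
    linarith
  have hlog2 : (0.476 : ℝ) ≤ Real.log n ^ 2 := by nlinarith
  have c1 : ((n - b : ℕ) : ℝ) = n - b := by rw [Nat.cast_sub (by omega)]
  have c2 : ((b - a : ℕ) : ℝ) = b - a := by rw [Nat.cast_sub (by omega)]
  have hg8 : (8 : ℝ) ≤ (b : ℝ) - a := by nlinarith
  have h3 := h (a + 1) (n - b + 2) n hn (by push_cast; rw [c1]; nlinarith)
  have k1 : (n : ℝ) - (a + 1 : ℕ) - (n - b + 2 : ℕ) = (b : ℝ) - a - 3 := by
    push_cast; rw [c1]; ring
  rw [k1] at h3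
  have h4 : (((SW n).filter (fun w => 4000 * BW (a + 1) (n - b + 2) w < b - a)).card : ℝ) ≤
      (((SW n).filter (fun w => (BW (a + 1) (n - b + 2) w : ℝ) <
        ((b : ℝ) - a - 3) / 2000)).card : ℝ) := by
    have : ((SW n).filter (fun w => 4000 * BW (a + 1) (n - b + 2) w < b - a)).card ≤
        ((SW n).filter (fun w => (BW (a + 1) (n - b + 2) w : ℝ) <
        ((b : ℝ) - a - 3) / 2000)).card := by
      refine card_le_card (fun w hw => ?_)
      rw [mem_filter] at hw ⊢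
      refine ⟨hw.1, ?_⟩
      have h5 : (4000 * (BW (a + 1) (n - b + 2) w : ℝ)) < ((b - a : ℕ) : ℝ) := by
        exact_mod_cast hw.2
      rw [c2] at h5
      rw [lt_div_iff₀ (by norm_num)]
      linarith
    exact_mod_cast this
  refine h4.trans (h3.trans ?_)
  have h5 : Real.exp (-(((b : ℝ) - a - 3) / 2500)) ≤ Real.exp (-(((b - a : ℕ) : ℝ) / 5000)) := by
    apply Real.exp_le_exp.mpr
    rw [c2]
    have : ((b : ℝ) - a) / 5000 ≤ ((b : ℝ) - a - 3) / 2500 := by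
      rw [div_le_div_iff₀ (by norm_num) (by norm_num)]
      nlinarith
    linarith
  gcongr

/-- the real analysis of the error terms -/
theorem err2 (D K : ℝ) (hD : 0 < D) (hK : 0 ≤ K) (k : ℕ) : ∃ A : ℝ, 0 < A ∧
    ∀ (n : ℕ), 2 ≤ n → ∀ g : ℕ, A * Real.log n ^ 2 ≤ g →
    D * Real.exp (-((g : ℝ) / 5000)) ≤ 1 / (8 * (n : ℝ) ^ k) ∧
    (2 / 7 : ℝ) ^ (g / 40000000) * Real.exp (K * Real.log n ^ 2) * 4 ≤ 1 / (8 * (n : ℝ) ^ k) ∧
    10 ^ 10 ≤ g := by
  refine ⟨10 ^ 11 + 10 ^ 9 * K + 10 ^ 5 * D + 10 ^ 9 * k, by positivity, fun n hn g hg => ?_⟩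
  have hn' : (2 : ℝ) ≤ n := by exact_mod_cast hn
  have hn0 : (0 : ℝ) < n := by linarith
  have hk0 : (0 : ℝ) ≤ k := Nat.cast_nonneg k
  obtain ⟨l, hl⟩ : ∃ l : ℝ, l = Real.log n := ⟨_, rfl⟩
  have hlog : (0.69 : ℝ) ≤ l := by
    have := Real.log_two_gt_d9
    have h3 : Real.log 2 ≤ Real.log n := Real.log_le_log (by norm_num) hn'
    rw [hl]; linarith
  have hnk : (n : ℝ) ^ k = Real.exp (k * l) := by
    rw [hl, mul_comm, Real.exp_mul, Real.exp_log hn0, Real.rpow_natCast]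
  rw [← hl] at hg ⊢
  have hl2 : (0.476 : ℝ) ≤ l ^ 2 := by nlinarith
  have hl3 : l ≤ 1.45 * l ^ 2 := by nlinarith
  have hkl : (k : ℝ) * l ≤ 1.45 * (k * l ^ 2) := by nlinarith
  have hKl : 0 ≤ K * l ^ 2 := mul_nonneg hK (sq_nonneg l)
  have hDl : D * 0.476 ≤ D * l ^ 2 := mul_le_mul_of_nonneg_left hl2 hD.le
  have hDl0 : 0 ≤ D * l ^ 2 := mul_nonneg hD.le (sq_nonneg l)
  have hkl0 : 0 ≤ (k : ℝ) * l ^ 2 := mul_nonneg hk0 (sq_nonneg l)
  have hg' : 10 ^ 11 * l ^ 2 + 10 ^ 9 * (K * l ^ 2) + 10 ^ 5 * (D * l ^ 2) + 10 ^ 9 * (k * l ^ 2) ≤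
      (g : ℝ) := by
    refine le_trans (le_of_eq ?_) hg
    ring
  have hg10 : (10 : ℝ) ^ 10 ≤ g := by nlinarith
  have hg10' : 10 ^ 10 ≤ g := by exact_mod_cast hg10
  have h8 : (8 : ℝ) ≤ Real.exp 3 := by
    have h7 : (2.7182818283 : ℝ) < Real.exp 1 := Real.exp_one_gt_d9
    have h8 : Real.exp 3 = Real.exp 1 ^ 3 := by rw [← Real.exp_nat_mul]; norm_num
    rw [h8]
    calc (8 : ℝ) = 2 ^ 3 := by norm_num
      _ ≤ Real.exp 1 ^ 3 := pow_le_pow_left₀ (by norm_num) (by linarith) 3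
  have e6 : 1 / (8 * (n : ℝ) ^ k) ≥ Real.exp (-(3 + k * l)) := by
    rw [hnk, Real.exp_neg, ge_iff_le, ← one_div]
    apply one_div_le_one_div_of_le (by positivity)
    rw [Real.exp_add]
    gcongr
  refine ⟨?_, ?_, hg10'⟩
  · refine le_trans ?_ e6
    have hDe : D ≤ Real.exp D := by
      have := Real.add_one_le_exp D
      linarith
    calc D * Real.exp (-((g : ℝ) / 5000)) ≤ Real.exp D * Real.exp (-((g : ℝ) / 5000)) := by gcongr
      _ = Real.exp (D + -((g : ℝ) / 5000)) := by rw [Real.exp_add]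
      _ ≤ Real.exp (-(3 + k * l)) := by
          apply Real.exp_le_exp.mpr
          have : (g : ℝ) / 5000 ≥ 3 + k * l + D := by
            rw [ge_iff_le, le_div_iff₀ (by norm_num)]
            nlinarith
          linarith
  · refine le_trans ?_ e6
    obtain ⟨m, hm⟩ : ∃ m : ℕ, m = g / 40000000 := ⟨_, rfl⟩
    rw [← hm]
    have hm1 : g < 40000000 * (m + 1) := by omega
    have hm2 : (g : ℝ) < 40000000 * ((m : ℝ) + 1) := by exact_mod_cast hm1
    have hp : (2 / 7 : ℝ) ^ m ≤ Real.exp (-(m : ℝ)) := by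
      have h7 : (2.7182818286 : ℝ) > Real.exp 1 := Real.exp_one_lt_d9
      have h9 : (2 / 7 : ℝ) ≤ Real.exp (-1) := by
        rw [Real.exp_neg, ← one_div, div_le_div_iff₀ (by norm_num) (Real.exp_pos _)]
        linarith
      calc (2 / 7 : ℝ) ^ m ≤ Real.exp (-1) ^ m := pow_le_pow_left₀ (by norm_num) h9 m
        _ = Real.exp (-(m : ℝ)) := by rw [← Real.exp_nat_mul]; ring_nf
    have h4 : (4 : ℝ) ≤ Real.exp 2 := by
      have h7 : (2 : ℝ) ≤ Real.exp 1 := by
        have := Real.add_one_le_exp (1 : ℝ)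
        linarith
      have h8 : Real.exp 2 = Real.exp 1 ^ 2 := by rw [← Real.exp_nat_mul]; norm_num
      rw [h8]
      nlinarith
    calc (2 / 7 : ℝ) ^ m * Real.exp (K * l ^ 2) * 4
        ≤ Real.exp (-(m : ℝ)) * Real.exp (K * l ^ 2) * Real.exp 2 := by gcongr
      _ = Real.exp (-(m : ℝ) + K * l ^ 2 + 2) := by rw [Real.exp_add, Real.exp_add]
      _ ≤ Real.exp (-(3 + k * l)) := by
          apply Real.exp_le_exp.mpr
          nlinarith

/-- many free and many occupied slots in the window -/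
def GW (L : Finset (ℤ × ℤ)) (a b : ℕ) (w : List Dir) : Prop :=
  (b - a) / 40000000 ≤ (OO L 1 (a, b) w).card ∧
    (OO L 1 (a, b) w).card + (b - a) / 40000000 ≤ (DD L 1 (a, b) w).card

/-- the bumps in a window as squares -/
theorem plw (hplq : S_PLQ) {n a b : ℕ} (h1 : a + 2 ≤ b) (h2 : b ≤ n) {w : List Dir}
    (hw : w ∈ SW n) : ∃ P : Finset (ℤ × ℤ), (∀ p ∈ P, |p.1| ≤ n + 1 ∧ |p.2| ≤ n + 1) ∧
      (∀ L : Finset (ℤ × ℤ), L ∩ P ⊆ OO L 1 (a, b) w) ∧ BW (a + 1) (n - b + 2) w ≤ P.card := by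
  rcases Nat.lt_or_ge b n with hb | hb
  · obtain ⟨P, hP1, hP2, hP3, hP4, hP5⟩ := hplq n w (a, b) hw (by simp only; omega) hb
    refine ⟨P 1, hP1 1, fun L p hp => ?_, le_trans ?_ hP4⟩
    · rw [mem_inter] at hp
      exact mem_filter.mpr ⟨hp.1, hP2 1 p hp.2⟩
    · refine card_le_card (fun i hi => ?_)
      rw [mem_filter] at hi ⊢
      exact ⟨hi.1, hi.2.1, by simp only; omega⟩
  · have hbn : b = n := by omega
    obtain ⟨P, hP1, hP2, hP3, hP4, hP5⟩ := hplq n w (a, n - 1) hw (by simp only; omega)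
      (by simp only; omega)
    refine ⟨P 1, hP1 1, fun L p hp => ?_, le_trans ?_ hP4⟩
    · rw [mem_inter] at hp
      obtain ⟨k, hk1, hk2⟩ := hP2 1 p hp.2
      refine mem_filter.mpr ⟨hp.1, k, hk1, ?_⟩
      simp only [In] at hk2 ⊢
      simp at hk2 ⊢
      omega
    · refine card_le_card (fun i hi => ?_)
      rw [mem_filter] at hi ⊢
      exact ⟨hi.1, hi.2.1, by simp only; omega⟩

/-- for most walks most families are good in a given window -/
theorem fam (hsel : S_SEL2) (hoff : S_OFF) (hplq : S_PLQ) (hup : S_UP) (hfew : S_FEW) (k : ℕ) :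
    ∃ A : ℝ, 0 < A ∧ ∀ n : ℕ, 2 ≤ n → ∃ (ι : Type) (_ : Fintype ι) (_ : Nonempty ι)
      (Λ : ι → Finset (ℤ × ℤ)), (∀ i, CF (Λ i)) ∧ ∀ a b : ℕ, a ≤ b → b ≤ n →
        A * Real.log n ^ 2 ≤ (b : ℝ) - a → 10 ^ 10 ≤ b - a ∧
        ∃ (F : Finset (List Dir)) (E : ι → Finset (List Dir)),
          (F.card : ℝ) ≤ ((SW n).card : ℝ) / (8 * (n : ℝ) ^ k) ∧
          (∀ i, ((E i).card : ℝ) ≤ ((SW n).card : ℝ) / (8 * (n : ℝ) ^ k)) ∧
          ∀ w ∈ SW n, w ∉ F →
            (b - a) * (univ.filter (fun i => w ∉ E i ∧ ¬ GW (Λ i) a b w)).card ≤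
              400000000 * Fintype.card ι := by
  obtain ⟨A1, D, hA1, hD, hF⟩ := few_win hfew
  obtain ⟨μ, K, hμ, hK, hlow, hupp⟩ := hup
  obtain ⟨A2, hA2, hE⟩ := err2 D K hD hK k
  refine ⟨A1 + A2, by positivity, fun n hn => ?_⟩
  obtain ⟨ι, hι1, hι2, Λ, hΛ, hsel⟩ := hsel (n + 1)
  refine ⟨ι, hι1, hι2, Λ, hΛ, fun a b hab hbn hg => ?_⟩
  have hlog2 : 0 ≤ Real.log n ^ 2 := sq_nonneg _
  have c2 : ((b - a : ℕ) : ℝ) = b - a := by rw [Nat.cast_sub (by omega)]
  have hg1 : A1 * Real.log n ^ 2 ≤ (b : ℝ) - a := by nlinarith [mul_nonneg hA2.le hlog2]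
  have hg2 : A2 * Real.log n ^ 2 ≤ ((b - a : ℕ) : ℝ) := by
    rw [c2]; nlinarith [mul_nonneg hA1.le hlog2]
  obtain ⟨g1, g2, g3⟩ := hE n hn (b - a) hg2
  have hn' : (2 : ℝ) ≤ n := by exact_mod_cast hn
  have hcn : (0 : ℝ) < ((SW n).card : ℝ) := lt_of_lt_of_le (by positivity) (hlow n)
  obtain ⟨c, hcc⟩ : ∃ c : ℝ, c = ((SW n).card : ℝ) := ⟨_, rfl⟩
  rw [← hcc] at hcn
  refine ⟨g3, (SW n).filter (fun w => 4000 * BW (a + 1) (n - b + 2) w < b - a),
    fun i => (SW n).filter (fun w => (b - a) / 5000000 ≤ (OO (Λ i) 1 (a, b) w).card ∧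
      (DD (Λ i) 1 (a, b) w).card ≤ (OO (Λ i) 1 (a, b) w).card + (b - a) / 40000000), ?_, ?_, ?_⟩
  · refine (hF n a b hn hab hbn hg1).trans ?_
    rw [← hcc]
    calc D * Real.exp (-(((b - a : ℕ) : ℝ) / 5000)) * c ≤ 1 / (8 * (n : ℝ) ^ k) * c := by gcongr
      _ = c / (8 * (n : ℝ) ^ k) := by ring
  · intro i
    have q1 := hoff (Λ i) (hΛ i) 1 (a, b) n ((b - a) / 40000000) ((b - a) / 40000000)
      ((b - a) / 5000000) hab hbn le_rfl (by omega) (by simp) (by intro _; simp only; omega)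
      (by simp)
    refine q1.trans ?_
    have g4 := hupp (n - 2 * ((b - a) / 40000000)) n hn (by omega)
    have g5 : μ ^ (n - 2 * ((b - a) / 40000000)) ≤ c := by
      rw [hcc]
      refine le_trans ?_ (hlow n)
      exact pow_le_pow_right₀ (by linarith) (by omega)
    rw [← hcc]
    calc (2 / 7 : ℝ) ^ ((b - a) / 40000000) * ((SW (n - 2 * ((b - a) / 40000000))).card : ℝ)
        ≤ (2 / 7 : ℝ) ^ ((b - a) / 40000000) * (4 * (c * Real.exp (K * Real.log n ^ 2))) := by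
          refine mul_le_mul_of_nonneg_left (g4.trans ?_) (by positivity)
          gcongr
      _ = ((2 / 7 : ℝ) ^ ((b - a) / 40000000) * Real.exp (K * Real.log n ^ 2) * 4) * c := by ring
      _ ≤ 1 / (8 * (n : ℝ) ^ k) * c := by gcongr
      _ = c / (8 * (n : ℝ) ^ k) := by ring
  · intro w hw hwF
    obtain ⟨P, hP1, hP2, hP3⟩ := plw hplq (a := a) (b := b) (by omega) hbn hw
    have hPc : b - a ≤ 4000 * P.card := by
      rw [mem_filter] at hwF
      push Not at hwF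
      have := hwF hw
      omega
    have hs := hsel P (fun p hp => by
      have := hP1 p hp
      push_cast
      exact this)
    have hsub : (univ.filter (fun i => w ∉ (SW n).filter (fun w =>
        (b - a) / 5000000 ≤ (OO (Λ i) 1 (a, b) w).card ∧
        (DD (Λ i) 1 (a, b) w).card ≤ (OO (Λ i) 1 (a, b) w).card + (b - a) / 40000000) ∧
        ¬ GW (Λ i) a b w)).card ≤
        (univ.filter (fun i => 1024 * (Λ i ∩ P).card < P.card)).card := by
      refine card_le_card (fun i hi => ?_)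
      rw [mem_filter] at hi ⊢
      refine ⟨mem_univ _, ?_⟩
      obtain ⟨-, h1, h2⟩ := hi
      rw [mem_filter] at h1
      by_contra hcon
      push Not at hcon
      have h3 := card_le_card (hP2 (Λ i))
      have h4 : (b - a) / 5000000 ≤ (OO (Λ i) 1 (a, b) w).card := by omega
      have h5 : ¬ (DD (Λ i) 1 (a, b) w).card ≤
          (OO (Λ i) 1 (a, b) w).card + (b - a) / 40000000 := fun h => h1 ⟨hw, h4, h⟩
      apply h2
      unfold GW
      constructor
      · omega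
      · omega
    calc (b - a) * _ ≤ (4000 * P.card) *
          (univ.filter (fun i => 1024 * (Λ i ∩ P).card < P.card)).card :=
          Nat.mul_le_mul hPc hsub
      _ = 4000 * (P.card * (univ.filter (fun i => 1024 * (Λ i ∩ P).card < P.card)).card) := by ring
      _ ≤ 4000 * (100000 * Fintype.card ι) := Nat.mul_le_mul_left _ hs
      _ = _ := by ring

end

end Pool.Agent.N929.EY
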