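import Pool.Agent.N929.EY.Stm
import Pool.Agent.N929.EX.MI

/-!
# The smoothing inequality for pieces, for the walks with many free and occupied slots
-/

set_option autoImplicit false
set_option linter.unusedVariables false

namespace Pool.Agent.N929.EY

open Pool.Agent.H976R2 Pool.Agent.H976R2.Dir Finset
open Pool.Agent.N929.EX
open scoped Classical

noncomputable section

/-- slots of a window -/
theorem win_len {L : Finset (ℤ × ℤ)} (hL : CF L) {n a b : ℕ} (h1 : a ≤ b)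
    (h2 : b ≤ n) {w : List Dir} (hw : w ∈ SW n) :
    2 * (OO L 1 (a, b) w).card ≤ b - a := by
  have := slots_len hL (T := (a, b)) h1 h2 hw 1
  simpa [gl] using this

/-- two binomial coefficients -/
theorem bin2 (hb : S_BIN) (S S' i j A : ℕ) (h1 : 4 * A ^ 2 ≤ i) (h2 : i + 4 * A ^ 2 ≤ S)
    (h3 : 4 * A ^ 2 + A ≤ j) (h4 : j + (4 * A ^ 2 + A) ≤ S') :
    ((A : ℝ) + 1) * ((S.choose i : ℝ) * (S'.choose j : ℝ)) ≤
      ∑ k ∈ range (2 * A + 1), ch S ((i : ℤ) + ((k : ℤ) - A)) * ch S' ((j : ℤ) - ((k : ℤ) - A)) := by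
  have := hb 0 2 1 (by decide) (by decide) (by decide) ![S, S', 0] ![i, j, 0] A 0
    (by simpa using h1) (by simpa using h2) (by simp) (by simp) (by simpa using h3)
    (by simpa using h4)
  simp only [Fin.prod_univ_three] at this
  simp [dl, ch] at this
  unfold ch
  have e : ∀ k : ℕ, (-((k : ℤ) - A)) = (A : ℤ) - k := fun k => by ring
  refine this.trans (le_of_eq ?_)
  refine Finset.sum_congr rfl (fun k _ => ?_)
  congr 3
  omega

/-- many free and many occupied slots in the two windows `(p, q)` and `(q', r)` -/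
def Gd2 (L : Finset (ℤ × ℤ)) (p q q' r : ℕ) (a : ℕ) (w : List Dir) : Prop :=
  4 * a ^ 2 ≤ (OO L 1 (p, q) w).card ∧
  (OO L 1 (p, q) w).card + 4 * a ^ 2 ≤ (DD L 1 (p, q) w).card ∧
  4 * a ^ 2 + a ≤ (OO L 1 (q', r) w).card ∧
  (OO L 1 (q', r) w).card + (4 * a ^ 2 + a) ≤ (DD L 1 (q', r) w).card

abbrev TP := (ℕ → ℤ × ℤ) × (ℕ → ℤ × ℤ) × (ℕ → ℤ × ℤ)

theorem mi2 (hc : S_CLW) (hb : S_BIN) {L : Finset (ℤ × ℤ)} (hL : CF L) {n p u m v l : ℕ}
    (hn : n = p + u + m + v + l) (a : ℕ) (ha : 2 * a ≤ u) (Z : Set TP) :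
    ((a : ℝ) + 1) * (((SW n).filter (fun w => tr p (p + u) m (p + u + m + v) l w ∈ Z ∧
      Gd2 L p (p + u) (p + u + m) (p + u + m + v) a w)).card : ℝ) ≤
      ∑ i ∈ range (2 * a + 1), (((SW n).filter (fun w =>
        tr p (p + u + 2 * i - 2 * a) m (p + u + m + v) l w ∈ Z)).card : ℝ) := by
  obtain ⟨G, hG⟩ : ∃ G, G = (SW n).filter (fun w => tr p (p + u) m (p + u + m + v) l w ∈ Z ∧
      Gd2 L p (p + u) (p + u + m) (p + u + m + v) a w) := ⟨_, rfl⟩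
  rw [← hG]
  -- the class of a word
  obtain ⟨κ, hκ⟩ : ∃ κ : List Dir → TP × Finset (ℤ × ℤ) × Finset (ℤ × ℤ) × ℕ × ℕ,
    ∀ w, κ w = (tr p (p + u) m (p + u + m + v) l w, DD L 1 (p, p + u) w,
      DD L 1 (p + u + m, p + u + m + v) w, (OO L 1 (p, p + u) w).card,
      (OO L 1 (p + u + m, p + u + m + v) w).card) := ⟨_, fun _ => rfl⟩
  obtain ⟨Hc, hHc⟩ : ∃ Hc : TP × Finset (ℤ × ℤ) × Finset (ℤ × ℤ) × ℕ × ℕ → ℕ → ℕ →
    Finset (List Dir),
    ∀ x i j, Hc x i j = HW L x.1 x.2.1 x.2.2.1 p (u - 2 * x.2.2.2.1) m (v - 2 * x.2.2.2.2) l i j :=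
    ⟨_, fun _ _ _ => rfl⟩
  obtain ⟨K, hK⟩ : ∃ K, K = G.image κ := ⟨_, rfl⟩
  have hcls : ∀ x ∈ K, x.1 ∈ Z ∧ 2 * x.2.2.2.1 ≤ u ∧ 2 * x.2.2.2.2 ≤ v ∧
      4 * a ^ 2 ≤ x.2.2.2.1 ∧ x.2.2.2.1 + 4 * a ^ 2 ≤ x.2.1.card ∧
      4 * a ^ 2 + a ≤ x.2.2.2.2 ∧ x.2.2.2.2 + (4 * a ^ 2 + a) ≤ x.2.2.1.card := by
    intro x hx
    rw [hK, mem_image] at hx
    obtain ⟨w, hw, rfl⟩ := hx
    rw [hG, mem_filter] at hw
    obtain ⟨hw, hz, hg⟩ := hw
    rw [hκ]
    have w1 := win_len hL (a := p) (b := p + u) (by omega) (by omega) hw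
    have w2 := win_len hL (a := p + u + m) (b := p + u + m + v) (by omega) (by omega) hw
    exact ⟨hz, by simp only; omega, by simp only; omega, hg⟩
  have hG1 : (G.card : ℝ) ≤ ∑ x ∈ K, ((Hc x x.2.2.2.1 x.2.2.2.2).card : ℝ) := by
    rw [card_eq_sum_card_image κ G, ← hK]
    push_cast
    refine sum_le_sum (fun x hx => ?_)
    have : (G.filter (fun w => κ w = x)).card ≤ (Hc x x.2.2.2.1 x.2.2.2.2).card := by
      refine card_le_card (fun w hw => ?_)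
      rw [mem_filter, hG, mem_filter] at hw
      obtain ⟨⟨hw, hz, hg⟩, rfl⟩ := hw
      obtain ⟨-, g1, g2, -⟩ := hcls _ hx
      rw [hHc, HW, mem_filter, hκ]
      rw [hκ] at g1 g2
      simp only at g1 g2 ⊢
      have e1 : p + (u - 2 * (OO L 1 (p, p + u) w).card + 2 * (OO L 1 (p, p + u) w).card) =
          p + u := by omega
      have e2 : v - 2 * (OO L 1 (p + u + m, p + u + m + v) w).card +
          2 * (OO L 1 (p + u + m, p + u + m + v) w).card = v := by omega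
      rw [e1, e2, ← hn]
      exact ⟨hw, rfl, rfl, rfl, rfl, rfl⟩
    exact_mod_cast this
  -- the shifted numbers
  obtain ⟨f, hf⟩ : ∃ f : ℕ → ℕ → ℕ, ∀ i k, f i k = ((i : ℤ) + ((k : ℤ) - a)).toNat :=
    ⟨_, fun _ _ => rfl⟩
  obtain ⟨f', hf'⟩ : ∃ f' : ℕ → ℕ → ℕ, ∀ i k, f' i k = ((i : ℤ) - ((k : ℤ) - a)).toNat :=
    ⟨_, fun _ _ => rfl⟩
  have haa : a ≤ 4 * a ^ 2 := by
    have := Nat.le_self_pow (show 2 ≠ 0 by norm_num) a
    omega
  have hff : ∀ i k, k ∈ range (2 * a + 1) → 4 * a ^ 2 ≤ i → f i k + a = i + k := by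
    intro i k hk hi
    rw [mem_range] at hk
    rw [hf]
    omega
  have hff' : ∀ i k, k ∈ range (2 * a + 1) → 4 * a ^ 2 + a ≤ i → f' i k + k = i + a := by
    intro i k hk hi
    rw [mem_range] at hk
    rw [hf']
    omega
  -- (2) one class
  have h2c : ∀ x ∈ K, ((a : ℝ) + 1) * ((Hc x x.2.2.2.1 x.2.2.2.2).card : ℝ) ≤
      ∑ k ∈ range (2 * a + 1), ((Hc x (f x.2.2.2.1 k) (f' x.2.2.2.2 k)).card : ℝ) := by
    intro x hx
    obtain ⟨-, -, -, g1, g2, g3, g4⟩ := hcls x hx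
    have hbin := bin2 hb _ _ _ _ a g1 g2 g3 g4
    obtain ⟨N0, hN0⟩ : ∃ N0 : ℝ, N0 = ((Hc x 0 0).card : ℝ) := ⟨_, rfl⟩
    have hN0p : 0 ≤ N0 := by rw [hN0]; positivity
    have e : ∀ i j, ((Hc x i j).card : ℝ) =
        ((x.2.1.card.choose i : ℕ) : ℝ) * ((x.2.2.1.card.choose j : ℕ) : ℝ) * N0 := by
      intro i j
      rw [hN0, hHc, hHc, hc L hL x.1 x.2.1 x.2.2.1 p (u - 2 * x.2.2.2.1) m (v - 2 * x.2.2.2.2) l i j]
      push_cast
      rfl
    rw [e]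
    calc ((a : ℝ) + 1) * (((x.2.1.card.choose x.2.2.2.1 : ℕ) : ℝ) *
          ((x.2.2.1.card.choose x.2.2.2.2 : ℕ) : ℝ) * N0)
        = (((a : ℝ) + 1) * (((x.2.1.card.choose x.2.2.2.1 : ℕ) : ℝ) *
          ((x.2.2.1.card.choose x.2.2.2.2 : ℕ) : ℝ))) * N0 := by ring
      _ ≤ (∑ k ∈ range (2 * a + 1), ch x.2.1.card ((x.2.2.2.1 : ℤ) + ((k : ℤ) - a)) *
          ch x.2.2.1.card ((x.2.2.2.2 : ℤ) - ((k : ℤ) - a))) * N0 :=
          mul_le_mul_of_nonneg_right hbin hN0p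
      _ = _ := by
          rw [Finset.sum_mul]
          refine Finset.sum_congr rfl (fun k _ => ?_)
          rw [e, hf, hf']
          rfl
  -- (3) the shifted classes are disjoint
  have h3c : ∀ k ∈ range (2 * a + 1),
      ∑ x ∈ K, ((Hc x (f x.2.2.2.1 k) (f' x.2.2.2.2 k)).card : ℝ) ≤
        (((SW n).filter (fun w =>
        tr p (p + u + 2 * k - 2 * a) m (p + u + m + v) l w ∈ Z)).card : ℝ) := by
    intro k hk
    have hT : ∀ x ∈ K, p + (u - 2 * x.2.2.2.1 + 2 * f x.2.2.2.1 k) = p + u + 2 * k - 2 * a ∧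
        p + (u - 2 * x.2.2.2.1 + 2 * f x.2.2.2.1 k) + m +
          (v - 2 * x.2.2.2.2 + 2 * f' x.2.2.2.2 k) = p + u + m + v := by
      intro x hx
      obtain ⟨-, g5, g6, g1, g2, g3, g4⟩ := hcls x hx
      have q1 := hff _ k hk g1
      have q2 := hff' _ k hk g3
      constructor
      · omega
      · omega
    have hdisj : ∀ x ∈ K, ∀ x' ∈ K, x ≠ x' →
        Disjoint (Hc x (f x.2.2.2.1 k) (f' x.2.2.2.2 k))
          (Hc x' (f x'.2.2.2.1 k) (f' x'.2.2.2.2 k)) := by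
      intro x hx x' hx' hne
      rw [Finset.disjoint_left]
      intro w hw hw'
      apply hne
      obtain ⟨-, g5, g6, g1, g2, g3, g4⟩ := hcls x hx
      obtain ⟨-, g5', g6', g1', g2', g3', g4'⟩ := hcls x' hx'
      have q1 := hff _ k hk g1
      have q2 := hff' _ k hk g3
      have q1' := hff _ k hk g1'
      have q2' := hff' _ k hk g3'
      rw [hHc, HW, mem_filter, (hT x hx).2, (hT x hx).1] at hw
      rw [hHc, HW, mem_filter, (hT x' hx').2, (hT x' hx').1] at hw'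
      obtain ⟨-, a1, a2, a3, a4, a5⟩ := hw
      obtain ⟨-, b1, b2, b3, b4, b5⟩ := hw'
      have c4 := a4.symm.trans b4
      have c5 := a5.symm.trans b5
      refine Prod.ext (a1.symm.trans b1) (Prod.ext (a2.symm.trans b2)
        (Prod.ext (a3.symm.trans b3) (Prod.ext ?_ ?_)))
      · show x.2.2.2.1 = x'.2.2.2.1
        omega
      · show x.2.2.2.2 = x'.2.2.2.2
        omega
    have hun : (K.biUnion (fun x => Hc x (f x.2.2.2.1 k) (f' x.2.2.2.2 k))).card =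
        ∑ x ∈ K, (Hc x (f x.2.2.2.1 k) (f' x.2.2.2.2 k)).card := card_biUnion hdisj
    have hsub : K.biUnion (fun x => Hc x (f x.2.2.2.1 k) (f' x.2.2.2.2 k)) ⊆
        (SW n).filter (fun w =>
        tr p (p + u + 2 * k - 2 * a) m (p + u + m + v) l w ∈ Z) := by
      intro w hw
      rw [mem_biUnion] at hw
      obtain ⟨x, hx, hw⟩ := hw
      rw [hHc, HW, mem_filter, (hT x hx).2, (hT x hx).1, ← hn] at hw
      obtain ⟨a0, a1, -⟩ := hw
      rw [mem_filter]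
      exact ⟨a0, by rw [a1]; exact (hcls x hx).1⟩
    have := card_le_card hsub
    rw [hun] at this
    exact_mod_cast this
  calc ((a : ℝ) + 1) * (G.card : ℝ)
      ≤ ((a : ℝ) + 1) * ∑ x ∈ K, ((Hc x x.2.2.2.1 x.2.2.2.2).card : ℝ) := by gcongr
    _ = ∑ x ∈ K, ((a : ℝ) + 1) * ((Hc x x.2.2.2.1 x.2.2.2.2).card : ℝ) := by
        rw [Finset.mul_sum]
    _ ≤ ∑ x ∈ K, ∑ k ∈ range (2 * a + 1), ((Hc x (f x.2.2.2.1 k) (f' x.2.2.2.2 k)).card : ℝ) :=
        sum_le_sum h2c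
    _ = ∑ k ∈ range (2 * a + 1), ∑ x ∈ K, ((Hc x (f x.2.2.2.1 k) (f' x.2.2.2.2 k)).card : ℝ) := by
        rw [Finset.sum_comm]
    _ ≤ _ := sum_le_sum (fun k hk => h3c k hk)

end

end Pool.Agent.N929.EY
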