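import Pool.Agent.N929.EY.Stm

/-!
# Sizes of the window classes
-/

set_option autoImplicit false
set_option linter.unusedVariables false

namespace Pool.Agent.N929.EY

open Pool.Agent.H976R2 Pool.Agent.H976R2.Dir Finset
open Pool.Agent.N929.EX
open scoped Classical

noncomputable section

theorem OO_sub' {L : Finset (ℤ × ℤ)} {s : Fin 3} {T : ℕ × ℕ} {w : List Dir} :
    OO L s T w ⊆ DD L s T w := by
  intro q hq
  unfold EX.OO at hq
  unfold EX.DD
  rw [mem_filter] at hq ⊢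
  obtain ⟨h1, k, h2⟩ := hq
  exact ⟨h1, k, Or.inr h2⟩

theorem pc_lo {w w' : List Dir} {a q m : ℕ} (h : ∀ t, t ≤ a → Lip.PP w' t = Lip.PP w t)
    (hq : q + m ≤ a) : pc q m w' = pc q m w := by
  funext j
  exact h _ (by have := min_le_right j m; omega)

theorem pc_hi {w w' : List Dir} {b n q m : ℕ}
    (h : ∀ t, b ≤ t → t ≤ n → Lip.PP w' (t + 2) = Lip.PP w t)
    (hq : b ≤ q) (hn : q + m ≤ n) : pc (q + 2) m w' = pc q m w := by
  funext j
  unfold pc
  have := min_le_right j m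
  have e : q + 2 + min j m = (q + min j m) + 2 := by omega
  rw [e]
  exact h _ (by omega) (by omega)

/-- the class, in terms of the window ends -/
theorem HW_mem {L : Finset (ℤ × ℤ)} {X : (ℕ → ℤ × ℤ) × (ℕ → ℤ × ℤ) × (ℕ → ℤ × ℤ)}
    {D D' : Finset (ℤ × ℤ)} {p u m v l i j a b n : ℕ} (ha : a = p + (u + 2 * i))
    (hb : b = a + m + (v + 2 * j)) (hn : n = b + l) (w : List Dir) :
    w ∈ HW L X D D' p u m v l i j ↔ w ∈ SW n ∧ (pc 0 p w = X.1 ∧ pc a m w = X.2.1 ∧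
      pc b l w = X.2.2) ∧ DD L 1 (p, a) w = D ∧ DD L 1 (a + m, b) w = D' ∧
      (OO L 1 (p, a) w).card = i ∧ (OO L 1 (a + m, b) w).card = j := by
  subst ha hb hn
  unfold HW tr
  rw [mem_filter]
  constructor
  · rintro ⟨h1, h2, h3⟩
    exact ⟨h1, ⟨congrArg Prod.fst h2, congrArg (fun x => x.2.1) h2,
      congrArg (fun x => x.2.2) h2⟩, h3⟩
  · rintro ⟨h1, h2, h3⟩
    exact ⟨h1, Prod.ext h2.1 (Prod.ext h2.2.1 h2.2.2), h3⟩

theorem step1 (h : S_WT) {L : Finset (ℤ × ℤ)} (hL : CF L)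
    (X : (ℕ → ℤ × ℤ) × (ℕ → ℤ × ℤ) × (ℕ → ℤ × ℤ)) (D D' : Finset (ℤ × ℤ))
    (p u m v l i j : ℕ) :
    (HW L X D D' p u m v l i j).card * (D.card - i) =
      (HW L X D D' p u m v l (i + 1) j).card * (i + 1) := by
  obtain ⟨f, g, hf, hg⟩ := h L hL
  obtain ⟨a, ha⟩ : ∃ a, a = p + (u + 2 * i) := ⟨_, rfl⟩
  obtain ⟨b, hb⟩ : ∃ b, b = a + m + (v + 2 * j) := ⟨_, rfl⟩
  obtain ⟨n, hn⟩ : ∃ n, n = b + l := ⟨_, rfl⟩
  have hmem := HW_mem (L := L) (X := X) (D := D) (D' := D') ha hb hn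
  have hmem' := HW_mem (L := L) (X := X) (D := D) (D' := D') (p := p) (u := u) (m := m) (v := v)
    (l := l) (i := i + 1) (j := j) (a := a + 2) (b := b + 2) (n := n + 2) (by omega) (by omega)
    (by omega)
  have e1 : (HW L X D D' p u m v l i j).card * (D.card - i) =
      ((HW L X D D' p u m v l i j).sigma (fun w => D \ OO L 1 (p, a) w)).card := by
    rw [card_sigma, Finset.sum_const_nat (m := D.card - i)]
    intro w hw
    obtain ⟨-, -, h4, -, h5, -⟩ := (hmem w).1 hw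
    rw [card_sdiff_of_subset, h5]
    rw [← h4]
    exact OO_sub'
  have e2 : (HW L X D D' p u m v l (i + 1) j).card * (i + 1) =
      ((HW L X D D' p u m v l (i + 1) j).sigma (fun w => OO L 1 (p, a + 2) w)).card := by
    rw [card_sigma, Finset.sum_const_nat (m := i + 1)]
    intro w hw
    obtain ⟨-, -, -, -, h5, -⟩ := (hmem' w).1 hw
    exact h5
  rw [e1, e2]
  have hpa : p ≤ a := by omega
  have han : a ≤ n := by omega
  refine Finset.card_nbij' (fun x => ⟨f x.1 x.2, x.2⟩) (fun x => ⟨g x.1 x.2, x.2⟩) ?_ ?_ ?_ ?_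
  · rintro ⟨w, q⟩ hx
    simp only [coe_sigma, Set.mem_sigma_iff, mem_coe, mem_sdiff] at hx ⊢
    obtain ⟨hw, hp1, hp2⟩ := hx
    obtain ⟨h1, ⟨h2, h3, h4⟩, h5, h6, h7, h8⟩ := (hmem w).1 hw
    obtain ⟨k, -⟩ := hf p a n w q hpa han h1 (by rw [h5]; exact hp1) hp2
    refine ⟨(hmem' _).2 ⟨k.sw', ⟨?_, ?_, ?_⟩, ?_, ?_, ?_, ?_⟩, ?_⟩
    · rw [pc_lo k.lo (by omega), h2]
    · rw [pc_hi k.hi le_rfl (by omega), h3]
    · rw [pc_hi k.hi (by omega) (by omega), h4]
    · rw [k.dd, h5]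
    · have := k.dhi (a + m) b (by omega) (by omega) (by omega)
      rw [show a + 2 + m = a + m + 2 by omega, this, h6]
    · rw [k.os, card_insert_of_notMem hp2, h7]
    · have := k.ohi (a + m) b (by omega) (by omega) (by omega)
      rw [show a + 2 + m = a + m + 2 by omega, this, h8]
    · rw [k.os]
      exact mem_insert_self _ _
  · rintro ⟨w, q⟩ hx
    simp only [coe_sigma, Set.mem_sigma_iff, mem_coe, mem_sdiff] at hx ⊢
    obtain ⟨hw, hp⟩ := hx
    obtain ⟨h1, ⟨h2, h3, h4⟩, h5, h6, h7, h8⟩ := (hmem' w).1 hw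
    obtain ⟨k, -⟩ := hg p a n w q hpa han h1 hp
    have hD : DD L 1 (p, a) (g w q) = D := by rw [← k.dd, h5]
    refine ⟨(hmem _).2 ⟨k.sw, ⟨?_, ?_, ?_⟩, hD, ?_, ?_, ?_⟩, ?_, ?_⟩
    · rw [← pc_lo k.lo (by omega), h2]
    · rw [← pc_hi k.hi le_rfl (by omega), h3]
    · rw [← pc_hi k.hi (by omega) (by omega), h4]
    · have := k.dhi (a + m) b (by omega) (by omega) (by omega)
      rw [← this, ← show a + 2 + m = a + m + 2 by omega, h6]
    · have h9 := h7
      rw [k.os, card_insert_of_notMem k.nm] at h9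
      omega
    · have := k.ohi (a + m) b (by omega) (by omega) (by omega)
      rw [← this, ← show a + 2 + m = a + m + 2 by omega, h8]
    · rw [← hD]
      exact k.mem
    · exact k.nm
  · rintro ⟨w, q⟩ hx
    simp only [coe_sigma, Set.mem_sigma_iff, mem_coe, mem_sdiff] at hx ⊢
    obtain ⟨hw, hp1, hp2⟩ := hx
    obtain ⟨h1, -, h5, -⟩ := (hmem w).1 hw
    obtain ⟨-, k⟩ := hf p a n w q hpa han h1 (by rw [h5]; exact hp1) hp2
    rw [k]
  · rintro ⟨w, q⟩ hx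
    simp only [coe_sigma, Set.mem_sigma_iff, mem_coe, mem_sdiff] at hx ⊢
    obtain ⟨hw, hp⟩ := hx
    obtain ⟨h1, -⟩ := (hmem' w).1 hw
    obtain ⟨-, k⟩ := hg p a n w q hpa han h1 hp
    rw [k]

theorem step2 (h : S_WT) {L : Finset (ℤ × ℤ)} (hL : CF L)
    (X : (ℕ → ℤ × ℤ) × (ℕ → ℤ × ℤ) × (ℕ → ℤ × ℤ)) (D D' : Finset (ℤ × ℤ))
    (p u m v l i j : ℕ) :
    (HW L X D D' p u m v l i j).card * (D'.card - j) =
      (HW L X D D' p u m v l i (j + 1)).card * (j + 1) := by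
  obtain ⟨f, g, hf, hg⟩ := h L hL
  obtain ⟨a, ha⟩ : ∃ a, a = p + (u + 2 * i) := ⟨_, rfl⟩
  obtain ⟨b, hb⟩ : ∃ b, b = a + m + (v + 2 * j) := ⟨_, rfl⟩
  obtain ⟨n, hn⟩ : ∃ n, n = b + l := ⟨_, rfl⟩
  have hmem := HW_mem (L := L) (X := X) (D := D) (D' := D') ha hb hn
  have hmem' := HW_mem (L := L) (X := X) (D := D) (D' := D') (p := p) (u := u) (m := m) (v := v)
    (l := l) (i := i) (j := j + 1) (a := a) (b := b + 2) (n := n + 2) (by omega) (by omega)
    (by omega)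
  have e1 : (HW L X D D' p u m v l i j).card * (D'.card - j) =
      ((HW L X D D' p u m v l i j).sigma (fun w => D' \ OO L 1 (a + m, b) w)).card := by
    rw [card_sigma, Finset.sum_const_nat (m := D'.card - j)]
    intro w hw
    obtain ⟨-, -, -, h4, -, h5⟩ := (hmem w).1 hw
    rw [card_sdiff_of_subset, h5]
    rw [← h4]
    exact OO_sub'
  have e2 : (HW L X D D' p u m v l i (j + 1)).card * (j + 1) =
      ((HW L X D D' p u m v l i (j + 1)).sigma (fun w => OO L 1 (a + m, b + 2) w)).card := by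
    rw [card_sigma, Finset.sum_const_nat (m := j + 1)]
    intro w hw
    obtain ⟨-, -, -, -, -, h5⟩ := (hmem' w).1 hw
    exact h5
  rw [e1, e2]
  have hpa : a + m ≤ b := by omega
  have han : b ≤ n := by omega
  refine Finset.card_nbij' (fun x => ⟨f x.1 x.2, x.2⟩) (fun x => ⟨g x.1 x.2, x.2⟩) ?_ ?_ ?_ ?_
  · rintro ⟨w, q⟩ hx
    simp only [coe_sigma, Set.mem_sigma_iff, mem_coe, mem_sdiff] at hx ⊢
    obtain ⟨hw, hp1, hp2⟩ := hx
    obtain ⟨h1, ⟨h2, h3, h4⟩, h5, h6, h7, h8⟩ := (hmem w).1 hw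
    obtain ⟨k, -⟩ := hf (a + m) b n w q hpa han h1 (by rw [h6]; exact hp1) hp2
    refine ⟨(hmem' _).2 ⟨k.sw', ⟨?_, ?_, ?_⟩, ?_, ?_, ?_, ?_⟩, ?_⟩
    · rw [pc_lo k.lo (by omega), h2]
    · rw [pc_lo k.lo (by omega), h3]
    · rw [pc_hi k.hi le_rfl (by omega), h4]
    · rw [k.dlo p a (by omega) (by omega), h5]
    · rw [k.dd, h6]
    · rw [k.olo p a (by omega) (by omega), h7]
    · rw [k.os, card_insert_of_notMem hp2, h8]
    · rw [k.os]
      exact mem_insert_self _ _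
  · rintro ⟨w, q⟩ hx
    simp only [coe_sigma, Set.mem_sigma_iff, mem_coe, mem_sdiff] at hx ⊢
    obtain ⟨hw, hp⟩ := hx
    obtain ⟨h1, ⟨h2, h3, h4⟩, h5, h6, h7, h8⟩ := (hmem' w).1 hw
    obtain ⟨k, -⟩ := hg (a + m) b n w q hpa han h1 hp
    have hD : DD L 1 (a + m, b) (g w q) = D' := by rw [← k.dd, h6]
    refine ⟨(hmem _).2 ⟨k.sw, ⟨?_, ?_, ?_⟩, ?_, hD, ?_, ?_⟩, ?_, ?_⟩
    · rw [← pc_lo k.lo (by omega), h2]
    · rw [← pc_lo k.lo (by omega), h3]
    · rw [← pc_hi k.hi le_rfl (by omega), h4]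
    · rw [← k.dlo p a (by omega) (by omega), h5]
    · rw [← k.olo p a (by omega) (by omega), h7]
    · have h9 := h8
      rw [k.os, card_insert_of_notMem k.nm] at h9
      omega
    · rw [← hD]
      exact k.mem
    · exact k.nm
  · rintro ⟨w, q⟩ hx
    simp only [coe_sigma, Set.mem_sigma_iff, mem_coe, mem_sdiff] at hx ⊢
    obtain ⟨hw, hp1, hp2⟩ := hx
    obtain ⟨h1, -, -, h6, -⟩ := (hmem w).1 hw
    obtain ⟨-, k⟩ := hf (a + m) b n w q hpa han h1 (by rw [h6]; exact hp1) hp2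
    rw [k]
  · rintro ⟨w, q⟩ hx
    simp only [coe_sigma, Set.mem_sigma_iff, mem_coe, mem_sdiff] at hx ⊢
    obtain ⟨hw, hp⟩ := hx
    obtain ⟨h1, -⟩ := (hmem' w).1 hw
    obtain ⟨-, k⟩ := hg (a + m) b n w q hpa han h1 hp
    rw [k]

/-- from the ratios to the binomial coefficients -/
theorem binom_of_step (F : ℕ → ℕ) (S : ℕ) (h : ∀ i, F i * (S - i) = F (i + 1) * (i + 1)) (i : ℕ) :
    F i = S.choose i * F 0 := by
  induction i with
  | zero => simp
  | succ i ih =>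
    have h1 := h i
    rw [ih] at h1
    have h2 := Nat.choose_succ_right_eq S i
    apply Nat.eq_of_mul_eq_mul_right (Nat.succ_pos i)
    rw [Nat.succ_eq_add_one]
    calc F (i + 1) * (i + 1) = S.choose i * F 0 * (S - i) := h1.symm
      _ = (S.choose i * (S - i)) * F 0 := by ring
      _ = (S.choose (i + 1) * (i + 1)) * F 0 := by rw [h2]
      _ = _ := by ring

theorem clw (h : S_WT) : S_CLW := by
  intro L hL X D D' p u m v l i j
  have h1 := binom_of_step (fun i => (HW L X D D' p u m v l i j).card) D.card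
    (fun i => step1 h hL X D D' p u m v l i j) i
  have h2 := binom_of_step (fun j => (HW L X D D' p u m v l 0 j).card) D'.card
    (fun j => step2 h hL X D D' p u m v l 0 j) j
  rw [h1, h2]
  ring

end

end Pool.Agent.N929.EY
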