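import Pool.Agent.N929.EY.MG2

/-! Merging under a time shift by `2 * k`. -/

set_option autoImplicit false
set_option linter.unusedVariables false

namespace Pool.Agent.N929.EY

open Pool.Agent.H976R2 Pool.Agent.H976R2.Dir Finset
open Pool.Agent.N929.EX
open scoped Classical

/-- the merging estimate for shifts by `2 * k` -/
theorem mgk (h : S_MG) : ∃ A C : ℝ, 0 < A ∧ 0 < C ∧ ∀ n k p u m v l : ℕ,
    n = p + u + m + v + l → 2 ≤ n → 2 * k ≤ v →
    A * Real.log n ^ 2 ≤ u → A * Real.log n ^ 2 ≤ v → ∀ Z : Set TP,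
      |(((SW n).filter (fun w => tr p (p + u) m (p + u + m + v) l w ∈ Z)).card : ℝ) -
        (((SW n).filter (fun w => tr p (p + u + 2 * k) m (p + u + m + v) l w ∈ Z)).card : ℝ)| ≤
      C * k * (1 / Real.sqrt u + 1 / Real.sqrt v) * ((SW n).card : ℝ) := by
  obtain ⟨A, C, hA, hC, h⟩ := h
  refine ⟨2 * A, 2 * C + 4, by positivity, by positivity,
    fun n k p u m v l hn hn2 hkv hu hv Z => ?_⟩
  have hn' : (2 : ℝ) ≤ n := by exact_mod_cast hn2
  have hl : 0 < Real.log n ^ 2 := by
    have : 0 < Real.log n := Real.log_pos (by linarith)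
    positivity
  have hAl : 0 < A * Real.log n ^ 2 := by positivity
  have hu0 : (0 : ℝ) < u := by nlinarith
  have hv0 : (0 : ℝ) < v := by nlinarith
  obtain ⟨c, hcc⟩ : ∃ c : ℝ, c = ((SW n).card : ℝ) := ⟨_, rfl⟩
  have hc0 : 0 ≤ c := by rw [hcc]; positivity
  obtain ⟨f, hf⟩ : ∃ f : ℕ → ℝ, ∀ i, f i =
    (((SW n).filter (fun w => tr p (p + u + 2 * i) m (p + u + m + v) l w ∈ Z)).card : ℝ) :=
    ⟨_, fun _ => rfl⟩
  have hf0 : ∀ i, 0 ≤ f i ∧ f i ≤ c := by
    intro i
    rw [hf, hcc]
    refine ⟨by positivity, ?_⟩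
    exact_mod_cast card_le_card (filter_subset _ _)
  have e0 : (((SW n).filter (fun w => tr p (p + u) m (p + u + m + v) l w ∈ Z)).card : ℝ) = f 0 := by
    rw [hf]; rfl
  rw [e0, ← hf, ← hcc]
  have hsu : 0 < 1 / Real.sqrt u := by positivity
  have hsv : 0 < 1 / Real.sqrt v := by positivity
  rcases Nat.lt_or_ge v (4 * k) with hk | hk
  · -- trivial case
    have h1 : |f 0 - f k| ≤ c := by
      rw [abs_le]
      constructor
      · linarith [(hf0 0).1, (hf0 k).2]
      · linarith [(hf0 0).2, (hf0 k).1]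
    refine h1.trans ?_
    have h2 : (v : ℝ) ≤ 4 * k := by exact_mod_cast hk.le
    have h3 : 1 ≤ 4 * k * (1 / Real.sqrt v) := by
      have h4 : Real.sqrt v ≤ v := by
        have h5 : (1 : ℝ) ≤ v := by
          have : 0 < v := by exact_mod_cast hv0
          exact_mod_cast this
        rw [Real.sqrt_le_left hv0.le]
        nlinarith
      rw [mul_one_div, le_div_iff₀ (Real.sqrt_pos.mpr hv0)]
      linarith
    have hk0 : (0 : ℝ) ≤ k := Nat.cast_nonneg k
    have h5 : 1 ≤ (2 * C + 4) * k * (1 / Real.sqrt u + 1 / Real.sqrt v) := by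
      have h6 : 0 ≤ (2 * C + 4) * k * (1 / Real.sqrt u) := by positivity
      have h7 : 0 ≤ 2 * C * k * (1 / Real.sqrt v) := by positivity
      nlinarith
    calc c = 1 * c := (one_mul c).symm
      _ ≤ _ := mul_le_mul_of_nonneg_right h5 hc0
  · have hstep : ∀ i, i < k → |f i - f (i + 1)| ≤
        (2 * C) * (1 / Real.sqrt u + 1 / Real.sqrt v) * c := by
      intro i hi
      have hv2 : (v : ℝ) / 2 ≤ ((v - 2 * i : ℕ) : ℝ) := by
        have : v ≤ 2 * (v - 2 * i) := by omega
        have : (v : ℝ) ≤ 2 * ((v - 2 * i : ℕ) : ℝ) := by exact_mod_cast this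
        linarith
      have key := h n p (u + 2 * i) m (v - 2 * i) l (by omega) hn2
        (by push_cast; nlinarith [Nat.cast_nonneg (α := ℝ) i])
        (by nlinarith) Z
      have e1 : p + (u + 2 * i) = p + u + 2 * i := by omega
      have e2 : p + (u + 2 * i) + m + (v - 2 * i) = p + u + m + v := by omega
      have e3 : p + (u + 2 * i) + 2 = p + u + 2 * (i + 1) := by omega
      rw [e2, e3, e1, ← hf, ← hf, ← hcc] at key
      refine key.trans ?_
      have k1 : 1 / Real.sqrt ((u + 2 * i : ℕ) : ℝ) ≤ 1 / Real.sqrt u := by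
        apply one_div_le_one_div_of_le (Real.sqrt_pos.mpr hu0)
        apply Real.sqrt_le_sqrt
        push_cast
        nlinarith [Nat.cast_nonneg (α := ℝ) i]
      have k2 : 1 / Real.sqrt ((v - 2 * i : ℕ) : ℝ) ≤ 2 * (1 / Real.sqrt v) := by
        have k3 : Real.sqrt v ≤ 2 * Real.sqrt ((v - 2 * i : ℕ) : ℝ) := by
          have : Real.sqrt v ≤ Real.sqrt (4 * ((v - 2 * i : ℕ) : ℝ)) := by
            apply Real.sqrt_le_sqrt
            linarith
          rw [Real.sqrt_mul (by norm_num)] at this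
          have h4 : Real.sqrt 4 = 2 := by
            rw [show (4 : ℝ) = 2 ^ 2 by norm_num, Real.sqrt_sq (by norm_num)]
          rwa [h4] at this
        have k4 : 0 < Real.sqrt v := Real.sqrt_pos.mpr hv0
        have k5 : 0 < Real.sqrt ((v - 2 * i : ℕ) : ℝ) := by linarith
        rw [div_le_iff₀ k5]
        rw [mul_one_div, div_mul_eq_mul_div, le_div_iff₀ k4]
        linarith
      refine mul_le_mul_of_nonneg_right ?_ hc0
      calc C * (1 / Real.sqrt ((u + 2 * i : ℕ) : ℝ) + 1 / Real.sqrt ((v - 2 * i : ℕ) : ℝ))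
          ≤ C * (1 / Real.sqrt u + 2 * (1 / Real.sqrt v)) := by gcongr
        _ ≤ 2 * C * (1 / Real.sqrt u + 1 / Real.sqrt v) := by nlinarith [mul_pos hC hsu]
    have htel : ∀ j, j ≤ k → |f 0 - f j| ≤
        j * ((2 * C) * (1 / Real.sqrt u + 1 / Real.sqrt v) * c) := by
      intro j
      induction j with
      | zero => intro _; simp
      | succ j ih =>
        intro hj
        have h1 := ih (by omega)
        have h2 := hstep j (by omega)
        have h3 : |f 0 - f (j + 1)| ≤ |f 0 - f j| + |f j - f (j + 1)| := abs_sub_le _ _ _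
        push_cast
        linarith
    refine (htel k le_rfl).trans ?_
    have hk0 : (0 : ℝ) ≤ k := Nat.cast_nonneg k
    have h9 : 0 ≤ 4 * k * (1 / Real.sqrt u + 1 / Real.sqrt v) * c := by positivity
    calc (k : ℝ) * ((2 * C) * (1 / Real.sqrt u + 1 / Real.sqrt v) * c)
        = 2 * C * k * (1 / Real.sqrt u + 1 / Real.sqrt v) * c := by ring
      _ ≤ 2 * C * k * (1 / Real.sqrt u + 1 / Real.sqrt v) * c +
          4 * k * (1 / Real.sqrt u + 1 / Real.sqrt v) * c := le_add_of_nonneg_right h9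
      _ = _ := by ring

end Pool.Agent.N929.EY
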