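import Pool.Agent.N929.EY.MI
import Pool.Agent.N929.EY.Win

/-!
# The smoothing inequality for pieces
-/

set_option autoImplicit false
set_option linter.unusedVariables false

namespace Pool.Agent.N929.EY

open Pool.Agent.H976R2 Pool.Agent.H976R2.Dir Finset
open Pool.Agent.N929.EX
open scoped Classical

noncomputable section

theorem sm (hc : S_CLW) (hb : S_BIN) (hsel : S_SEL2) (hoff : S_OFF) (hplq : S_PLQ) (hup : S_UP)
    (hfew : S_FEW) : S_SM := by
  intro k
  obtain ⟨A, hA, h⟩ := fam hsel hoff hplq hup hfew k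
  obtain ⟨C, hC⟩ : ∃ C : ℝ, C = 1000000000 := ⟨_, rfl⟩
  refine ⟨A, C, hA, by rw [hC]; norm_num, fun n p u m v l a hn hn2 hu hv ha1 ha2 Z => ?_⟩
  obtain ⟨ι, hι1, hι2, Λ, hΛ, hw⟩ := h n hn2
  obtain ⟨hu10, F, E, hF, hE, hFE⟩ := hw p (p + u) (by omega) (by omega)
    (by push_cast; linarith)
  obtain ⟨hv10, F', E', hF', hE', hFE'⟩ := hw (p + u + m) (p + u + m + v) (by omega) (by omega)
    (by push_cast; linarith)
  have e1 : p + u - p = u := by omega
  have e2 : p + u + m + v - (p + u + m) = v := by omega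
  rw [e1] at hu10 hFE
  rw [e2] at hv10 hFE'
  have hn' : (2 : ℝ) ≤ n := by exact_mod_cast hn2
  obtain ⟨c, hcc⟩ : ∃ c : ℝ, c = ((SW n).card : ℝ) := ⟨_, rfl⟩
  have hc0 : 0 ≤ c := by rw [hcc]; positivity
  rw [← hcc] at hF hE hF' hE' ⊢
  obtain ⟨q, hq⟩ : ∃ q : ℝ, q = c / (8 * (n : ℝ) ^ k) := ⟨_, rfl⟩
  have hq8 : 8 * q = c / (n : ℝ) ^ k := by
    rw [hq]
    have : (0 : ℝ) < (n : ℝ) ^ k := by positivity
    field_simp
  rw [← hq] at hF hE hF' hE'
  obtain ⟨R, hR⟩ : ∃ R : ℝ, R = ∑ i ∈ range (2 * a + 1),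
          (((SW n).filter (fun w =>
            tr p (p + u + 2 * i - 2 * a) m (p + u + m + v) l w ∈ Z)).card : ℝ) := ⟨_, rfl⟩
  rw [← hR]
  obtain ⟨X, hX⟩ : ∃ X, X = (SW n).filter (fun w => tr p (p + u) m (p + u + m + v) l w ∈ Z) :=
    ⟨_, rfl⟩
  rw [← hX]
  obtain ⟨Y, hY⟩ : ∃ Y : ι → Finset (List Dir), ∀ i, Y i = (SW n).filter (fun w =>
      tr p (p + u) m (p + u + m + v) l w ∈ Z ∧
      Gd2 (Λ i) p (p + u) (p + u + m) (p + u + m + v) a w) := ⟨_, fun _ => rfl⟩
  have hu' : (a : ℝ) ^ 2 * 1000000000 ≤ u := by rw [hC] at ha1; linarith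
  have hv' : (a : ℝ) ^ 2 * 1000000000 ≤ v := by rw [hC] at ha2; linarith
  have hu2 : a ^ 2 * 1000000000 ≤ u := by exact_mod_cast hu'
  have hv2 : a ^ 2 * 1000000000 ≤ v := by exact_mod_cast hv'
  have haa : a ≤ a ^ 2 := Nat.le_self_pow (by norm_num) a
  have hYb : ∀ i, ((a : ℝ) + 1) * ((Y i).card : ℝ) ≤ R := by
    intro i
    rw [hY, hR]
    exact mi2 hc hb (hΛ i) hn a (by omega) Z
  -- main counting
  have hmain : ∀ w ∈ X, w ∉ F → w ∉ F' →
      (Fintype.card ι : ℝ) ≤ 2 * ∑ i : ι, ((if w ∈ Y i then (1 : ℝ) else 0) +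
        ((if w ∈ E i then (1 : ℝ) else 0) + if w ∈ E' i then (1 : ℝ) else 0)) := by
    intro w hwX hwF hwF'
    rw [hX, mem_filter] at hwX
    obtain ⟨hw, hz⟩ := hwX
    have b1 := hFE w hw hwF
    have b2 := hFE' w hw hwF'
    obtain ⟨B, hB⟩ : ∃ B, B = (univ.filter (fun i => w ∉ E i ∧ ¬ GW (Λ i) p (p + u) w)) := ⟨_, rfl⟩
    obtain ⟨B', hB'⟩ : ∃ B', B' = (univ.filter (fun i => w ∉ E' i ∧
      ¬ GW (Λ i) (p + u + m) (p + u + m + v) w)) := ⟨_, rfl⟩
    rw [← hB] at b1
    rw [← hB'] at b2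
    have c1 : 4 * B.card ≤ Fintype.card ι := by
      have : 1600000000 * B.card ≤ u * B.card := Nat.mul_le_mul_right _ (by omega)
      omega
    have c2 : 4 * B'.card ≤ Fintype.card ι := by
      have : 1600000000 * B'.card ≤ v * B'.card := Nat.mul_le_mul_right _ (by omega)
      omega
    have c3 : (Fintype.card ι : ℝ) ≤ 2 * (Fintype.card ι - (B.card + B'.card)) := by
      have c1' : 4 * (B.card : ℝ) ≤ Fintype.card ι := by exact_mod_cast c1
      have c2' : 4 * (B'.card : ℝ) ≤ Fintype.card ι := by exact_mod_cast c2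
      linarith
    refine c3.trans (mul_le_mul_of_nonneg_left ?_ (by norm_num))
    rw [sub_le_iff_le_add]
    have hone : (Fintype.card ι : ℝ) = ∑ i : ι, (1 : ℝ) := by
      rw [Finset.sum_const, nsmul_eq_mul, mul_one]
      rfl
    have hBs : ∀ S : Finset ι, (S.card : ℝ) = ∑ i : ι, if i ∈ S then (1 : ℝ) else 0 := by
      intro S
      rw [Finset.sum_ite_mem, Finset.univ_inter, Finset.sum_const, nsmul_eq_mul, mul_one]
    rw [hone, hBs B, hBs B', ← Finset.sum_add_distrib, ← Finset.sum_add_distrib]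
    refine sum_le_sum (fun i _ => ?_)
    have n0 : ∀ S : Finset (List Dir), (0 : ℝ) ≤ if w ∈ S then (1 : ℝ) else 0 := fun S => by
      split_ifs <;> norm_num
    have n1 : ∀ S : Finset ι, (0 : ℝ) ≤ if i ∈ S then (1 : ℝ) else 0 := fun S => by
      split_ifs <;> norm_num
    have l1 : ∀ S : Finset (List Dir), (if w ∈ S then (1 : ℝ) else 0) ≤ 1 := fun S => by
      split_ifs <;> norm_num
    by_cases h1 : w ∈ E i
    · rw [if_pos h1]
      linarith [n0 (Y i), n0 (E' i), n1 B, n1 B']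
    by_cases h2 : w ∈ E' i
    · rw [if_pos h2]
      linarith [n0 (Y i), n0 (E i), n1 B, n1 B']
    by_cases h3 : GW (Λ i) p (p + u) w
    · by_cases h4 : GW (Λ i) (p + u + m) (p + u + m + v) w
      · have h5 : w ∈ Y i := by
          rw [hY, mem_filter]
          refine ⟨hw, hz, ?_⟩
          unfold GW at h3 h4
          rw [e1] at h3
          rw [e2] at h4
          unfold Gd2
          refine ⟨by omega, by omega, by omega, by omega⟩
        rw [if_pos h5]
        linarith [n0 (E i), n0 (E' i), n1 B, n1 B']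
      · have h5 : i ∈ B' := by rw [hB', mem_filter]; exact ⟨mem_univ _, h2, h4⟩
        rw [if_pos h5]
        linarith [n0 (Y i), n0 (E i), n0 (E' i), n1 B]
    · have h5 : i ∈ B := by rw [hB, mem_filter]; exact ⟨mem_univ _, h1, h3⟩
      rw [if_pos h5]
      linarith [n0 (Y i), n0 (E i), n0 (E' i), n1 B']
  -- sum over the words
  obtain ⟨M, hM⟩ : ∃ M : ℝ, M = (Fintype.card ι : ℝ) := ⟨_, rfl⟩
  have hM0 : 0 < M := by
    rw [hM]
    exact_mod_cast Fintype.card_pos
  obtain ⟨X', hX'⟩ : ∃ X', X' = X.filter (fun w => w ∉ F ∧ w ∉ F') := ⟨_, rfl⟩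
  have hXX' : (X.card : ℝ) ≤ X'.card + (F.card + F'.card) := by
    have : X ⊆ X' ∪ (F ∪ F') := by
      intro w hw
      rw [mem_union, mem_union]
      by_cases h1 : w ∈ F
      · exact Or.inr (Or.inl h1)
      · by_cases h2 : w ∈ F'
        · exact Or.inr (Or.inr h2)
        · left; rw [hX', mem_filter]; exact ⟨hw, h1, h2⟩
    have h3 := (card_le_card this).trans (card_union_le _ _)
    have h4 := card_union_le F F'
    have h5 : X.card ≤ X'.card + (F.card + F'.card) := h3.trans (by omega)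
    exact_mod_cast h5
  have hcount : M * (X'.card : ℝ) ≤ 2 * ∑ i : ι, (((Y i).card : ℝ) +
      (((E i).card : ℝ) + ((E' i).card : ℝ))) := by
    have hYX : ∀ S : Finset (List Dir), ∑ w ∈ X', (if w ∈ S then (1 : ℝ) else 0) ≤ (S.card : ℝ) := by
      intro S
      rw [← Finset.sum_filter, Finset.sum_const, nsmul_eq_mul, mul_one]
      have : (X'.filter (fun w => w ∈ S)).card ≤ S.card :=
        card_le_card (fun w hw => (mem_filter.mp hw).2)
      exact_mod_cast this
    calc M * (X'.card : ℝ) = ∑ w ∈ X', M := by rw [Finset.sum_const, nsmul_eq_mul]; ring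
      _ ≤ ∑ w ∈ X', 2 * ∑ i : ι, ((if w ∈ Y i then (1 : ℝ) else 0) +
          ((if w ∈ E i then (1 : ℝ) else 0) + if w ∈ E' i then (1 : ℝ) else 0)) := by
          refine sum_le_sum (fun w hw => ?_)
          rw [hX', mem_filter] at hw
          rw [hM]
          exact hmain w hw.1 hw.2.1 hw.2.2
      _ = 2 * ∑ i : ι, ((∑ w ∈ X', if w ∈ Y i then (1 : ℝ) else 0) +
          ((∑ w ∈ X', if w ∈ E i then (1 : ℝ) else 0) +
            ∑ w ∈ X', if w ∈ E' i then (1 : ℝ) else 0)) := by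
          rw [← Finset.mul_sum, Finset.sum_comm]
          congr 1
          refine Finset.sum_congr rfl (fun i _ => ?_)
          rw [Finset.sum_add_distrib, Finset.sum_add_distrib]
      _ ≤ _ := by
          refine mul_le_mul_of_nonneg_left (sum_le_sum (fun i _ => ?_)) (by norm_num)
          exact add_le_add (hYX _) (add_le_add (hYX _) (hYX _))
  have ha0 : (0 : ℝ) < (a : ℝ) + 1 := by positivity
  have hX'b : (X'.card : ℝ) ≤ 2 * (R / ((a : ℝ) + 1) + 2 * q) := by
    have h3 : 2 * ∑ i : ι, (((Y i).card : ℝ) + (((E i).card : ℝ) + ((E' i).card : ℝ))) ≤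
        2 * (M * (R / ((a : ℝ) + 1) + 2 * q)) := by
      refine mul_le_mul_of_nonneg_left ?_ (by norm_num)
      calc ∑ i : ι, (((Y i).card : ℝ) + (((E i).card : ℝ) + ((E' i).card : ℝ)))
          ≤ ∑ i : ι, (R / ((a : ℝ) + 1) + 2 * q) := by
            refine sum_le_sum (fun i _ => add_le_add ?_ ?_)
            · rw [le_div_iff₀ ha0]
              have := hYb i
              linarith
            · linarith [hE i, hE' i]
        _ = M * (R / ((a : ℝ) + 1) + 2 * q) := by
            rw [Finset.sum_const, nsmul_eq_mul, hM]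
            rfl
    have h4 : M * (X'.card : ℝ) ≤ M * (2 * (R / ((a : ℝ) + 1) + 2 * q)) := by
      refine (hcount.trans h3).trans (le_of_eq ?_)
      ring
    exact le_of_mul_le_mul_left h4 hM0
  have hR0 : 0 ≤ R := by
    rw [hR]
    exact Finset.sum_nonneg (fun _ _ => Nat.cast_nonneg _)
  have hq0 : 0 ≤ q := by rw [hq]; positivity
  have hfin2 : 2 * (R / ((a : ℝ) + 1)) ≤ C / ((a : ℝ) + 1) * R := by
    have e : C / ((a : ℝ) + 1) * R = C * (R / ((a : ℝ) + 1)) := by ring
    rw [e]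
    have h0 : 0 ≤ R / ((a : ℝ) + 1) := by positivity
    exact mul_le_mul_of_nonneg_right (by rw [hC]; norm_num) h0
  linarith

end

end Pool.Agent.N929.EY
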