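import Pool.Agent.N929.EX.All
import Pool.Agent.N929.EY.CLW
import Pool.Agent.N929.EY.SM
import Pool.Agent.N929.EY.MGk
import Pool.Agent.N415.EY.WT
import Pool.Agent.N49.EY.SEL2

/-! Project EY: the statements, unconditionally. -/

set_option autoImplicit false

namespace Pool.Agent.N929.EY

theorem s_clw : S_CLW := clw (Pool.Agent.N415.EY.wt Pool.Agent.N400.EX.tog)

theorem s_sm : S_SM :=
  sm s_clw Pool.Agent.N232.EX.bin Pool.Agent.N49.EY.sel2
    (Pool.Agent.N27.EX.off Pool.Agent.N400.EX.tog) Pool.Agent.N457.EX.plq Pool.Agent.N348.EX.up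
    (Pool.Agent.N348.EX.few_of_up Pool.Agent.N348.EX.up)

theorem s_mg : S_MG :=
  mg s_clw Pool.Agent.N49.EY.sel2
    (Pool.Agent.N27.EX.off Pool.Agent.N400.EX.tog) Pool.Agent.N457.EX.plq Pool.Agent.N348.EX.up
    (Pool.Agent.N348.EX.few_of_up Pool.Agent.N348.EX.up)

end Pool.Agent.N929.EY
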