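import Pool.Agent.N929.EY.MI
import Pool.Agent.N929.EY.Win

/-!
# Merging in total variation under a time shift of the middle piece
-/

set_option autoImplicit false
set_option linter.unusedVariables false

namespace Pool.Agent.N929.EY

open Pool.Agent.H976R2 Pool.Agent.H976R2.Dir Finset
open Pool.Agent.N929.EX
open scoped Classical

noncomputable section

/-- classes: pieces, slots in the two windows, numbers of occupied slots -/
abbrev KL := TP × Finset (ℤ × ℤ) × Finset (ℤ × ℤ) × ℕ × ℕ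

/-- the walks of the class `x` after moving `d` bumps from the second to the first window -/
def Hd (L : Finset (ℤ × ℤ)) (p u m v l : ℕ) (x : KL) (d : ℕ) : Finset (List Dir) :=
  HW L x.1 x.2.1 x.2.2.1 p (u - 2 * x.2.2.2.1) m (v - 2 * x.2.2.2.2) l (x.2.2.2.1 + d)
    (x.2.2.2.2 - d)

theorem Hd_mem {L : Finset (ℤ × ℤ)} {n p u m v l : ℕ} (hn : n = p + u + m + v + l) {x : KL}
    {d : ℕ} (h1 : 2 * x.2.2.2.1 ≤ u) (h2 : 2 * x.2.2.2.2 ≤ v) (h3 : d ≤ x.2.2.2.2)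
    (w : List Dir) : w ∈ Hd L p u m v l x d ↔ w ∈ SW n ∧
      tr p (p + u + 2 * d) m (p + u + m + v) l w = x.1 ∧
      DD L 1 (p, p + u + 2 * d) w = x.2.1 ∧
      DD L 1 (p + u + 2 * d + m, p + u + m + v) w = x.2.2.1 ∧
      (OO L 1 (p, p + u + 2 * d) w).card = x.2.2.2.1 + d ∧
      (OO L 1 (p + u + 2 * d + m, p + u + m + v) w).card = x.2.2.2.2 - d := by
  unfold Hd HW
  have e1 : p + (u - 2 * x.2.2.2.1 + 2 * (x.2.2.2.1 + d)) = p + u + 2 * d := by omega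
  have e2 : p + u + 2 * d + m + (v - 2 * x.2.2.2.2 + 2 * (x.2.2.2.2 - d)) = p + u + m + v := by
    omega
  rw [mem_filter, e1, e2, ← hn]

theorem dis {L : Finset (ℤ × ℤ)} {n p u m v l : ℕ} (hn : n = p + u + m + v + l)
    (K : Finset KL) (d : ℕ) (hK : ∀ x ∈ K, 2 * x.2.2.2.1 ≤ u ∧ 2 * x.2.2.2.2 ≤ v ∧
      d ≤ x.2.2.2.2) (Z : Set TP) (hZ : ∀ x ∈ K, x.1 ∈ Z) :
    ∑ x ∈ K, ((Hd L p u m v l x d).card : ℝ) ≤ (((SW n).filter (fun w =>
        tr p (p + u + 2 * d) m (p + u + m + v) l w ∈ Z)).card : ℝ) := by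
  have hdisj : ∀ x ∈ K, ∀ x' ∈ K, x ≠ x' →
      Disjoint (Hd L p u m v l x d) (Hd L p u m v l x' d) := by
    intro x hx x' hx' hne
    rw [Finset.disjoint_left]
    intro w hw hw'
    apply hne
    obtain ⟨g1, g2, g3⟩ := hK x hx
    obtain ⟨g1', g2', g3'⟩ := hK x' hx'
    rw [Hd_mem hn g1 g2 g3] at hw
    rw [Hd_mem hn g1' g2' g3'] at hw'
    obtain ⟨-, a1, a2, a3, a4, a5⟩ := hw
    obtain ⟨-, b1, b2, b3, b4, b5⟩ := hw'
    have c4 := a4.symm.trans b4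
    have c5 := a5.symm.trans b5
    refine Prod.ext (a1.symm.trans b1) (Prod.ext (a2.symm.trans b2)
      (Prod.ext (a3.symm.trans b3) (Prod.ext ?_ ?_)))
    · show x.2.2.2.1 = x'.2.2.2.1
      omega
    · show x.2.2.2.2 = x'.2.2.2.2
      omega
  have hun : (K.biUnion (fun x => Hd L p u m v l x d)).card =
      ∑ x ∈ K, (Hd L p u m v l x d).card := card_biUnion hdisj
  have hsub : K.biUnion (fun x => Hd L p u m v l x d) ⊆
      (SW n).filter (fun w => tr p (p + u + 2 * d) m (p + u + m + v) l w ∈ Z) := by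
    intro w hw
    rw [mem_biUnion] at hw
    obtain ⟨x, hx, hw⟩ := hw
    obtain ⟨g1, g2, g3⟩ := hK x hx
    rw [Hd_mem hn g1 g2 g3] at hw
    rw [mem_filter]
    exact ⟨hw.1, by rw [hw.2.1]; exact hZ x hx⟩
  have := card_le_card hsub
  rw [hun] at this
  exact_mod_cast this

/-- log-concavity of the binomial coefficients, almost sharp -/
theorem lc (S i : ℕ) (y : ℝ) (hy : 0 ≤ y) (h1 : 1 ≤ y * ((i : ℝ) + 1)) (hS : i + 2 ≤ S)
    (h2 : 1 ≤ y * ((S : ℝ) - i - 1)) :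
    ((S.choose (i + 1) : ℕ) : ℝ) ^ 2 ≤
      (1 + y) ^ 2 * (((S.choose i : ℕ) : ℝ) * ((S.choose (i + 2) : ℕ) : ℝ)) := by
  have e1 : (S.choose (i + 1) : ℝ) * ((i : ℝ) + 1) = (S.choose i : ℝ) * ((S : ℝ) - i) := by
    have := Nat.choose_succ_right_eq S i
    have h : ((S.choose (i + 1) * (i + 1) : ℕ) : ℝ) = ((S.choose i * (S - i) : ℕ) : ℝ) := by
      exact_mod_cast this
    push_cast at h
    rw [Nat.cast_sub (by omega)] at h
    exact h
  have e2 : (S.choose (i + 2) : ℝ) * ((i : ℝ) + 2) =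
      (S.choose (i + 1) : ℝ) * ((S : ℝ) - i - 1) := by
    have := Nat.choose_succ_right_eq S (i + 1)
    have h : ((S.choose (i + 1 + 1) * (i + 1 + 1) : ℕ) : ℝ) =
        ((S.choose (i + 1) * (S - (i + 1)) : ℕ) : ℝ) := by
      exact_mod_cast this
    push_cast at h
    rw [Nat.cast_sub (by omega)] at h
    push_cast at h
    have h' : (i : ℝ) + 1 + 1 = i + 2 := by ring
    have h'' : (S : ℝ) - (i + 1) = S - i - 1 := by ring
    rw [h', h''] at h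
    exact h
  obtain ⟨a, ha⟩ : ∃ a : ℝ, a = (S.choose i : ℝ) := ⟨_, rfl⟩
  obtain ⟨b, hb⟩ : ∃ b : ℝ, b = (S.choose (i + 1) : ℝ) := ⟨_, rfl⟩
  obtain ⟨c, hc⟩ : ∃ c : ℝ, c = (S.choose (i + 2) : ℝ) := ⟨_, rfl⟩
  rw [← ha, ← hb] at e1
  rw [← hb, ← hc] at e2
  rw [← ha, ← hb, ← hc]
  have ha0 : 0 ≤ a := by rw [ha]; positivity
  have hc0 : 0 ≤ c := by rw [hc]; positivity
  have hi0 : (0 : ℝ) < (i : ℝ) + 1 := by positivity
  have hS' : (i : ℝ) + 2 ≤ S := by exact_mod_cast hS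
  have hj0 : (0 : ℝ) < (S : ℝ) - i - 1 := by linarith
  have key : b ^ 2 * (((i : ℝ) + 1) * ((S : ℝ) - i - 1)) =
      (a * c) * (((S : ℝ) - i) * ((i : ℝ) + 2)) := by
    calc b ^ 2 * (((i : ℝ) + 1) * ((S : ℝ) - i - 1))
        = (b * ((i : ℝ) + 1)) * (b * ((S : ℝ) - i - 1)) := by ring
      _ = (a * ((S : ℝ) - i)) * (c * ((i : ℝ) + 2)) := by rw [e1, ← e2]
      _ = _ := by ring
  have hpos : 0 < ((i : ℝ) + 1) * ((S : ℝ) - i - 1) := by positivity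
  have hle : ((S : ℝ) - i) * ((i : ℝ) + 2) ≤
      (1 + y) ^ 2 * (((i : ℝ) + 1) * ((S : ℝ) - i - 1)) := by
    have k1 : (i : ℝ) + 2 ≤ (1 + y) * ((i : ℝ) + 1) := by linarith
    have k2 : (S : ℝ) - i ≤ (1 + y) * ((S : ℝ) - i - 1) := by linarith
    calc ((S : ℝ) - i) * ((i : ℝ) + 2)
        ≤ ((1 + y) * ((S : ℝ) - i - 1)) * ((1 + y) * ((i : ℝ) + 1)) :=
          mul_le_mul k2 k1 (by positivity) (by positivity)
      _ = _ := by ring
  have h3 : b ^ 2 * (((i : ℝ) + 1) * ((S : ℝ) - i - 1)) ≤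
      ((1 + y) ^ 2 * (a * c)) * (((i : ℝ) + 1) * ((S : ℝ) - i - 1)) := by
    rw [key]
    calc (a * c) * (((S : ℝ) - i) * ((i : ℝ) + 2))
        ≤ (a * c) * ((1 + y) ^ 2 * (((i : ℝ) + 1) * ((S : ℝ) - i - 1))) :=
          mul_le_mul_of_nonneg_left hle (mul_nonneg ha0 hc0)
      _ = _ := by ring
  exact le_of_mul_le_mul_right h3 hpos

/-- an almost log-concave triple of class sizes -/
theorem lcH (hc : S_CLW) {L : Finset (ℤ × ℤ)} (hL : CF L) {p u m v l : ℕ} {x : KL} (y : ℝ)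
    (hy : 0 ≤ y) (h1 : 1 ≤ y * ((x.2.2.2.1 : ℝ) + 1)) (h2 : x.2.2.2.1 + 2 ≤ x.2.1.card)
    (h3 : 1 ≤ y * ((x.2.1.card : ℝ) - x.2.2.2.1 - 1)) (h4 : 2 ≤ x.2.2.2.2)
    (h5 : 1 ≤ y * ((x.2.2.2.2 : ℝ) - 1)) (h6 : x.2.2.2.2 ≤ x.2.2.1.card)
    (h7 : 1 ≤ y * ((x.2.2.1.card : ℝ) - x.2.2.2.2 + 1)) :
    ((Hd L p u m v l x 1).card : ℝ) ^ 2 ≤
      (1 + y) ^ 4 * (((Hd L p u m v l x 0).card : ℝ) * ((Hd L p u m v l x 2).card : ℝ)) := by
  obtain ⟨j, hj⟩ : ∃ j, x.2.2.2.2 = j + 2 := ⟨x.2.2.2.2 - 2, by omega⟩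
  obtain ⟨N0, hN0⟩ : ∃ N0 : ℝ, N0 = ((HW L x.1 x.2.1 x.2.2.1 p (u - 2 * x.2.2.2.1) m
    (v - 2 * x.2.2.2.2) l 0 0).card : ℝ) := ⟨_, rfl⟩
  have hN0p : 0 ≤ N0 := by rw [hN0]; positivity
  have e : ∀ d, ((Hd L p u m v l x d).card : ℝ) =
      ((x.2.1.card.choose (x.2.2.2.1 + d) : ℕ) : ℝ) *
        ((x.2.2.1.card.choose (x.2.2.2.2 - d) : ℕ) : ℝ) * N0 := by
    intro d
    unfold Hd
    rw [hc L hL x.1 x.2.1 x.2.2.1 p (u - 2 * x.2.2.2.1) m (v - 2 * x.2.2.2.2) l, hN0]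
    push_cast
    ring
  rw [e 0, e 1, e 2]
  have e0 : x.2.2.2.2 - 0 = j + 2 := by omega
  have e1 : x.2.2.2.2 - 1 = j + 1 := by omega
  have e2 : x.2.2.2.2 - 2 = j := by omega
  have e3 : x.2.2.2.1 + 0 = x.2.2.2.1 := rfl
  rw [e0, e1, e2, e3]
  rw [hj] at h5 h6 h7
  push_cast at h5 h7
  have k1 := lc x.2.1.card x.2.2.2.1 y hy h1 h2 h3
  have k2 := lc x.2.2.1.card j y hy (by linarith) (by omega) (by linarith)
  obtain ⟨a0, ha0⟩ : ∃ a : ℝ, a = ((x.2.1.card.choose x.2.2.2.1 : ℕ) : ℝ) := ⟨_, rfl⟩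
  obtain ⟨a1, ha1⟩ : ∃ a : ℝ, a = ((x.2.1.card.choose (x.2.2.2.1 + 1) : ℕ) : ℝ) := ⟨_, rfl⟩
  obtain ⟨a2, ha2⟩ : ∃ a : ℝ, a = ((x.2.1.card.choose (x.2.2.2.1 + 2) : ℕ) : ℝ) := ⟨_, rfl⟩
  obtain ⟨b0, hb0⟩ : ∃ a : ℝ, a = ((x.2.2.1.card.choose j : ℕ) : ℝ) := ⟨_, rfl⟩
  obtain ⟨b1, hb1⟩ : ∃ a : ℝ, a = ((x.2.2.1.card.choose (j + 1) : ℕ) : ℝ) := ⟨_, rfl⟩
  obtain ⟨b2, hb2⟩ : ∃ a : ℝ, a = ((x.2.2.1.card.choose (j + 2) : ℕ) : ℝ) := ⟨_, rfl⟩
  rw [← ha0, ← ha1, ← ha2] at k1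
  rw [← hb0, ← hb1, ← hb2] at k2
  rw [← ha0, ← ha1, ← ha2, ← hb0, ← hb1, ← hb2]
  have p0 : 0 ≤ a0 := by rw [ha0]; positivity
  have p2 : 0 ≤ a2 := by rw [ha2]; positivity
  calc (a1 * b1 * N0) ^ 2 = a1 ^ 2 * b1 ^ 2 * N0 ^ 2 := by ring
    _ ≤ ((1 + y) ^ 2 * (a0 * a2)) * ((1 + y) ^ 2 * (b0 * b2)) * N0 ^ 2 := by
        refine mul_le_mul_of_nonneg_right ?_ (sq_nonneg _)
        exact mul_le_mul k1 k2 (sq_nonneg _) (by positivity)
    _ = _ := by ring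

/-- the elementary inequality behind the second moment argument -/
theorem elem {H0 H1 H2 t e : ℝ} (h0 : 0 ≤ H0) (h1 : 0 ≤ H1) (h2 : 0 ≤ H2) (ht : 0 < t)
    (h : H1 ^ 2 ≤ e * (H0 * H2)) (he : 0 ≤ e) :
    2 * |H0 - H1| ≤ t * H0 + (H0 - 2 * H1 + e * H2) / t := by
  rcases eq_or_lt_of_le h0 with h00 | h00
  · have : H1 = 0 := by
      rw [← h00] at h
      have h3 : H1 ^ 2 ≤ 0 := by linarith
      exact pow_eq_zero_iff (two_ne_zero) |>.mp (le_antisymm h3 (sq_nonneg _))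
    rw [this, ← h00]
    simp
    positivity
  · have k1 : (H0 - H1) ^ 2 ≤ H0 * (H0 - 2 * H1 + e * H2) := by nlinarith
    have k2 : 0 ≤ H0 - 2 * H1 + e * H2 := by
      by_contra hcon
      push Not at hcon
      nlinarith [sq_nonneg (H0 - H1)]
    rw [← sub_nonneg]
    obtain ⟨q, hq⟩ : ∃ q, q = H0 - 2 * H1 + e * H2 := ⟨_, rfl⟩
    rw [← hq] at k1 k2 ⊢
    have k3 : |H0 - H1| ≤ Real.sqrt (t * H0) * Real.sqrt (q / t) := by
      rw [← Real.sqrt_mul (by positivity)]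
      apply Real.le_sqrt_of_sq_le
      rw [sq_abs]
      have : t * H0 * (q / t) = H0 * q := by field_simp
      rw [this]
      exact k1
    have k4 : 2 * (Real.sqrt (t * H0) * Real.sqrt (q / t)) ≤ t * H0 + q / t := by
      have s1 := Real.sq_sqrt (show 0 ≤ t * H0 by positivity)
      have s2 := Real.sq_sqrt (show 0 ≤ q / t by positivity)
      nlinarith [sq_nonneg (Real.sqrt (t * H0) - Real.sqrt (q / t))]
    linarith

/-- one family which is good in four windows for most walks -/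
theorem pick (hsel : S_SEL2) (hoff : S_OFF) (hplq : S_PLQ) (hup : S_UP) (hfew : S_FEW) :
    ∃ A : ℝ, 0 < A ∧ ∀ n : ℕ, 2 ≤ n → ∀ (W : Fin 4 → ℕ × ℕ) (x : ℝ), 0 < x → x ≤ n →
      (∀ t, (W t).1 ≤ (W t).2 ∧ (W t).2 ≤ n ∧ A * Real.log n ^ 2 ≤ ((W t).2 : ℝ) - (W t).1 ∧
        x ≤ (((W t).2 - (W t).1 : ℕ) : ℝ)) →
      (∀ t, 10 ^ 10 ≤ (W t).2 - (W t).1) ∧ ∃ L : Finset (ℤ × ℤ), CF L ∧
        ∑ t : Fin 4, (((SW n).filter (fun w => ¬ GW L (W t).1 (W t).2 w)).card : ℝ) ≤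
          2000000000 / x * ((SW n).card : ℝ) := by
  obtain ⟨A, hA, h⟩ := fam hsel hoff hplq hup hfew 1
  refine ⟨A, hA, fun n hn W x hx hxn hW => ?_⟩
  obtain ⟨ι, hι1, hι2, Λ, hΛ, hw⟩ := h n hn
  have hw' := fun t => hw (W t).1 (W t).2 (hW t).1 (hW t).2.1 (hW t).2.2.1
  refine ⟨fun t => (hw' t).1, ?_⟩
  have hw'' := fun t => (hw' t).2
  choose F E hF hE hFE using hw''
  have hn' : (2 : ℝ) ≤ n := by exact_mod_cast hn
  obtain ⟨c, hcc⟩ : ∃ c : ℝ, c = ((SW n).card : ℝ) := ⟨_, rfl⟩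
  have hc0 : 0 ≤ c := by rw [hcc]; positivity
  rw [← hcc] at hF hE ⊢
  obtain ⟨B, hB⟩ : ∃ B : Fin 4 → ι → Finset (List Dir), ∀ t i, B t i = (SW n).filter
    (fun w => w ∉ F t ∧ w ∉ E t i ∧ ¬ GW (Λ i) (W t).1 (W t).2 w) := ⟨_, fun _ _ => rfl⟩
  have hM0 : (0 : ℝ) < (Fintype.card ι : ℝ) := by exact_mod_cast Fintype.card_pos
  -- the mean over the families
  have hmean : ∀ t, ∑ i : ι, ((B t i).card : ℝ) ≤
      400000000 / x * c * (Fintype.card ι : ℝ) := by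
    intro t
    have e1 : ∑ i : ι, ((B t i).card : ℝ) = ∑ w ∈ SW n, ∑ i : ι,
        (if w ∉ F t ∧ w ∉ E t i ∧ ¬ GW (Λ i) (W t).1 (W t).2 w then (1 : ℝ) else 0) := by
      rw [Finset.sum_comm]
      refine Finset.sum_congr rfl (fun i _ => ?_)
      rw [hB, Finset.card_filter]
      push_cast
      rfl
    rw [e1]
    calc ∑ w ∈ SW n, ∑ i : ι,
        (if w ∉ F t ∧ w ∉ E t i ∧ ¬ GW (Λ i) (W t).1 (W t).2 w then (1 : ℝ) else 0)
        ≤ ∑ w ∈ SW n, (400000000 / x * (Fintype.card ι : ℝ)) := by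
          refine sum_le_sum (fun w hw => ?_)
          by_cases hwF : w ∈ F t
          · have : ∑ i : ι, (if w ∉ F t ∧ w ∉ E t i ∧ ¬ GW (Λ i) (W t).1 (W t).2 w
                then (1 : ℝ) else 0) = 0 := by
              refine Finset.sum_eq_zero (fun i _ => ?_)
              rw [if_neg (fun h => h.1 hwF)]
            rw [this]
            positivity
          · have g1 := hFE t w hw hwF
            have e2 : ∑ i : ι, (if w ∉ F t ∧ w ∉ E t i ∧ ¬ GW (Λ i) (W t).1 (W t).2 w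
                then (1 : ℝ) else 0) =
                ((univ.filter (fun i => w ∉ E t i ∧ ¬ GW (Λ i) (W t).1 (W t).2 w)).card : ℝ) := by
              rw [Finset.card_filter]
              push_cast
              refine Finset.sum_congr rfl (fun i _ => ?_)
              by_cases hh : w ∉ E t i ∧ ¬ GW (Λ i) (W t).1 (W t).2 w
              · rw [if_pos hh, if_pos ⟨hwF, hh⟩]
              · rw [if_neg hh, if_neg (fun h => hh h.2)]
            rw [e2, div_mul_eq_mul_div, le_div_iff₀ hx]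
            have g2 : (((W t).2 - (W t).1 : ℕ) : ℝ) *
                ((univ.filter (fun i => w ∉ E t i ∧ ¬ GW (Λ i) (W t).1 (W t).2 w)).card : ℝ) ≤
                400000000 * (Fintype.card ι : ℝ) := by exact_mod_cast g1
            have g3 := (hW t).2.2.2
            nlinarith [mul_le_mul_of_nonneg_right g3 (Nat.cast_nonneg
              ((univ.filter (fun i => w ∉ E t i ∧ ¬ GW (Λ i) (W t).1 (W t).2 w)).card) :
              (0 : ℝ) ≤ _)]
      _ = _ := by rw [Finset.sum_const, nsmul_eq_mul, ← hcc]; ring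
  have hex : ∃ i : ι, ∑ t : Fin 4, ((B t i).card : ℝ) ≤ 1600000000 / x * c := by
    by_contra hcon
    push Not at hcon
    have h1 : ∑ i : ι, (1600000000 / x * c) < ∑ i : ι, ∑ t : Fin 4, ((B t i).card : ℝ) :=
      Finset.sum_lt_sum_of_nonempty Finset.univ_nonempty (fun i _ => hcon i)
    rw [Finset.sum_comm, Finset.sum_const, nsmul_eq_mul, Fin.sum_univ_four] at h1
    have h2 : (Finset.univ : Finset ι).card = Fintype.card ι := rfl
    rw [h2] at h1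
    have m0 := hmean 0
    have m1 := hmean 1
    have m2 := hmean 2
    have m3 := hmean 3
    have e3 : (Fintype.card ι : ℝ) * (1600000000 / x * c) =
        4 * (400000000 / x * c * (Fintype.card ι : ℝ)) := by ring
    linarith
  obtain ⟨i, hi⟩ := hex
  refine ⟨Λ i, hΛ i, ?_⟩
  have hb : ∀ t, (((SW n).filter (fun w => ¬ GW (Λ i) (W t).1 (W t).2 w)).card : ℝ) ≤
      (B t i).card + (c / (8 * (n : ℝ) ^ 1) + c / (8 * (n : ℝ) ^ 1)) := by
    intro t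
    have : (SW n).filter (fun w => ¬ GW (Λ i) (W t).1 (W t).2 w) ⊆ B t i ∪ (F t ∪ E t i) := by
      intro w hw
      rw [mem_filter] at hw
      rw [mem_union, mem_union]
      by_cases h1 : w ∈ F t
      · exact Or.inr (Or.inl h1)
      · by_cases h2 : w ∈ E t i
        · exact Or.inr (Or.inr h2)
        · left; rw [hB, mem_filter]; exact ⟨hw.1, h1, h2, hw.2⟩
    have h3 := (card_le_card this).trans (card_union_le _ _)
    have h4 := card_union_le (F t) (E t i)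
    have h5 : ((SW n).filter (fun w => ¬ GW (Λ i) (W t).1 (W t).2 w)).card ≤
        (B t i).card + ((F t).card + (E t i).card) := h3.trans (by omega)
    have h6 : (((SW n).filter (fun w => ¬ GW (Λ i) (W t).1 (W t).2 w)).card : ℝ) ≤
        (B t i).card + ((F t).card + (E t i).card) := by exact_mod_cast h5
    linarith [hF t, hE t i]
  calc ∑ t : Fin 4, (((SW n).filter (fun w => ¬ GW (Λ i) (W t).1 (W t).2 w)).card : ℝ)
      ≤ ∑ t : Fin 4, (((B t i).card : ℝ) + (c / (8 * (n : ℝ) ^ 1) + c / (8 * (n : ℝ) ^ 1))) :=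
        sum_le_sum (fun t _ => hb t)
    _ = ∑ t : Fin 4, ((B t i).card : ℝ) + c / n := by
        have h8 : c / (8 * (n : ℝ) ^ 1) = c / n / 8 := by
          rw [pow_one]
          field_simp
        rw [Finset.sum_add_distrib, h8, Fin.sum_univ_four (fun _ => c / n / 8 + c / n / 8)]
        ring
    _ ≤ 1600000000 / x * c + c / x := by
        refine add_le_add hi ?_
        gcongr
    _ ≤ _ := by
        have : 0 ≤ c / x := by positivity
        have e : 2000000000 / x * c = 1600000000 / x * c + 400000000 * (c / x) := by ring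
        rw [e]
        linarith

end

end Pool.Agent.N929.EY
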