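import Pool.Agent.N929.EY.MG

/-!
# Merging in total variation under a time shift of the middle piece: assembly
-/

set_option autoImplicit false
set_option linter.unusedVariables false

namespace Pool.Agent.N929.EY

open Pool.Agent.H976R2 Pool.Agent.H976R2.Dir Finset
open Pool.Agent.N929.EX
open scoped Classical

noncomputable section

/-- the one-sided estimate for one good family -/
theorem oneside (hc : S_CLW) {L : Finset (ℤ × ℤ)} (hL : CF L) {n p u m v l : ℕ}
    (hn : n = p + u + m + v + l) (hu10 : 10 ^ 10 ≤ u) (hv10 : 10 ^ 10 ≤ v) {β M : ℝ}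
    (hM : 0 < M) (hMu : M ≤ u) (hMv : M ≤ v) (hM10 : 10 ^ 10 ≤ M)
    (hβ : 0 < β)
    (hbad : (((SW n).filter (fun w => ¬ GW L p (p + u) w)).card : ℝ) +
      (((SW n).filter (fun w => ¬ GW L (p + u + m) (p + u + m + v) w)).card : ℝ) +
      (((SW n).filter (fun w => ¬ GW L p (p + u + 2) w)).card : ℝ) +
      (((SW n).filter (fun w => ¬ GW L (p + u + m + 2) (p + u + m + v) w)).card : ℝ) ≤
      β * ((SW n).card : ℝ)) (Z : Set TP) :
    (((SW n).filter (fun w => tr p (p + u) m (p + u + m + v) l w ∈ Z)).card : ℝ) -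
      (((SW n).filter (fun w => tr p (p + u + 2) m (p + u + m + v) l w ∈ Z)).card : ℝ) ≤
    (Real.sqrt (5 * (10 ^ 8 / M) + 2 * β) + β) * ((SW n).card : ℝ) := by
  obtain ⟨c, hcc⟩ : ∃ c : ℝ, c = ((SW n).card : ℝ) := ⟨_, rfl⟩
  have hc0 : 0 ≤ c := by rw [hcc]; positivity
  obtain ⟨B1, hB1⟩ : ∃ B, B = (SW n).filter (fun w => ¬ GW L p (p + u) w) := ⟨_, rfl⟩
  obtain ⟨B2, hB2⟩ : ∃ B, B = (SW n).filter (fun w => ¬ GW L (p + u + m) (p + u + m + v) w) :=
    ⟨_, rfl⟩
  obtain ⟨B3, hB3⟩ : ∃ B, B = (SW n).filter (fun w => ¬ GW L p (p + u + 2) w) := ⟨_, rfl⟩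
  obtain ⟨B4, hB4⟩ : ∃ B, B = (SW n).filter (fun w => ¬ GW L (p + u + m + 2) (p + u + m + v) w) :=
    ⟨_, rfl⟩
  rw [← hcc, ← hB1, ← hB2, ← hB3, ← hB4] at hbad
  rw [← hcc]
  have hB1' : (0 : ℝ) ≤ B1.card := Nat.cast_nonneg _
  have hB2' : (0 : ℝ) ≤ B2.card := Nat.cast_nonneg _
  have hB3' : (0 : ℝ) ≤ B3.card := Nat.cast_nonneg _
  have hB4' : (0 : ℝ) ≤ B4.card := Nat.cast_nonneg _
  -- the classes
  obtain ⟨κ, hκ⟩ : ∃ κ : List Dir → KL, ∀ w, κ w = (tr p (p + u) m (p + u + m + v) l w,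
      DD L 1 (p, p + u) w, DD L 1 (p + u + m, p + u + m + v) w, (OO L 1 (p, p + u) w).card,
      (OO L 1 (p + u + m, p + u + m + v) w).card) := ⟨_, fun _ => rfl⟩
  obtain ⟨κ', hκ'⟩ : ∃ κ' : List Dir → KL, ∀ w, κ' w = (tr p (p + u + 2) m (p + u + m + v) l w,
      DD L 1 (p, p + u + 2) w, DD L 1 (p + u + m + 2, p + u + m + v) w,
      (OO L 1 (p, p + u + 2) w).card - 1,
      (OO L 1 (p + u + m + 2, p + u + m + v) w).card + 1) := ⟨_, fun _ => rfl⟩
  obtain ⟨a, ha⟩ : ∃ a, a = u / 40000000 / 2 := ⟨_, rfl⟩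
  obtain ⟨b, hb⟩ : ∃ b, b = v / 40000000 / 2 := ⟨_, rfl⟩
  obtain ⟨K, hK⟩ : ∃ K, K = ((SW n).image κ ∪ (SW n).image κ').filter (fun x : KL =>
    2 * x.2.2.2.1 ≤ u ∧ 2 * x.2.2.2.2 ≤ v ∧ a ≤ x.2.2.2.1 ∧ x.2.2.2.1 + a ≤ x.2.1.card ∧
    b ≤ x.2.2.2.2 ∧ x.2.2.2.2 + b ≤ x.2.2.1.card) := ⟨_, rfl⟩
  have hKx : ∀ x ∈ K, 2 * x.2.2.2.1 ≤ u ∧ 2 * x.2.2.2.2 ≤ v ∧ a ≤ x.2.2.2.1 ∧
      x.2.2.2.1 + a ≤ x.2.1.card ∧ b ≤ x.2.2.2.2 ∧ x.2.2.2.2 + b ≤ x.2.2.1.card := by
    intro x hx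
    rw [hK, mem_filter] at hx
    exact hx.2
  have hb100 : 100 ≤ b := by omega
  have ha100 : 100 ≤ a := by omega
  have hKd : ∀ d, d ≤ 2 → ∀ x ∈ K, 2 * x.2.2.2.1 ≤ u ∧ 2 * x.2.2.2.2 ≤ v ∧ d ≤ x.2.2.2.2 := by
    intro d hd x hx
    obtain ⟨g1, g2, g3, g4, g5, g6⟩ := hKx x hx
    exact ⟨g1, g2, by omega⟩
  obtain ⟨H, hH⟩ : ∃ H : ℕ → KL → ℝ, ∀ d x, H d x = ((Hd L p u m v l x d).card : ℝ) :=
    ⟨_, fun _ _ => rfl⟩
  have hH0 : ∀ d x, 0 ≤ H d x := fun d x => by rw [hH]; positivity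
  -- all walks
  have hsum : ∀ d, d ≤ 2 → ∑ x ∈ K, H d x ≤ c := by
    intro d hd
    obtain ⟨U, hU⟩ : ∃ U : Set TP, U = Set.univ := ⟨_, rfl⟩
    have h1 := dis (L := L) hn K d (hKd d hd) U (fun _ _ => by rw [hU]; trivial)
    have h2 : (((SW n).filter (fun w =>
        tr p (p + u + 2 * d) m (p + u + m + v) l w ∈ U)).card : ℝ) ≤ c := by
      rw [hcc]
      exact_mod_cast card_le_card (filter_subset _ _)
    refine le_trans (le_of_eq ?_) (h1.trans h2)
    exact Finset.sum_congr rfl (fun x _ => hH d x)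
  -- the walks after the shift cover almost everything
  have hcov : c ≤ ∑ x ∈ K, H 1 x + (B3.card + B4.card) := by
    have hsub : SW n ⊆ K.biUnion (fun x => Hd L p u m v l x 1) ∪ (B3 ∪ B4) := by
      intro w hw
      rw [mem_union, mem_union]
      by_cases h3 : w ∈ B3
      · exact Or.inr (Or.inl h3)
      by_cases h4 : w ∈ B4
      · exact Or.inr (Or.inr h4)
      left
      rw [hB3, mem_filter] at h3
      push Not at h3
      rw [hB4, mem_filter] at h4
      push Not at h4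
      have g3 := h3 hw
      have g4 := h4 hw
      unfold GW at g3 g4
      have w3 := win_len hL (a := p) (b := p + u + 2) (by omega) (by omega) hw
      have w4 := win_len hL (a := p + u + m + 2) (b := p + u + m + v) (by omega) (by omega) hw
      have e3 : p + u + 2 - p = u + 2 := by omega
      have e4 : p + u + m + v - (p + u + m + 2) = v - 2 := by omega
      rw [e3] at g3 w3
      rw [e4] at g4 w4
      have hxK : κ' w ∈ K := by
        rw [hK, mem_filter]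
        refine ⟨mem_union_right _ (mem_image_of_mem _ hw), ?_⟩
        rw [hκ']
        simp only
        refine ⟨by omega, by omega, by omega, by omega, by omega, by omega⟩
      rw [mem_biUnion]
      refine ⟨κ' w, hxK, ?_⟩
      obtain ⟨q1, q2, q3⟩ := hKd 1 (by norm_num) _ hxK
      rw [Hd_mem hn q1 q2 q3, hκ']
      simp only
      have e5 : p + u + 2 * 1 = p + u + 2 := by omega
      have e6 : p + u + 2 * 1 + m = p + u + m + 2 := by omega
      rw [e6, e5]
      refine ⟨hw, ?_, ?_, ?_, ?_, ?_⟩ <;> first | trivial | rfl | omega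
    have h1 := (card_le_card hsub).trans (card_union_le _ _)
    have h2 := card_union_le B3 B4
    have h3 : (K.biUnion (fun x => Hd L p u m v l x 1)).card ≤
        ∑ x ∈ K, (Hd L p u m v l x 1).card := card_biUnion_le
    have h4 : (SW n).card ≤ ∑ x ∈ K, (Hd L p u m v l x 1).card + (B3.card + B4.card) := by omega
    have h5 : ((SW n).card : ℝ) ≤ ((∑ x ∈ K, (Hd L p u m v l x 1).card : ℕ) : ℝ) +
        (B3.card + B4.card) := by exact_mod_cast h4
    rw [hcc]
    refine h5.trans (le_of_eq ?_)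
    push_cast
    congr 1
    exact Finset.sum_congr rfl (fun x _ => (hH 1 x).symm)
  -- the walks before the shift
  obtain ⟨KZ, hKZ⟩ : ∃ KZ, KZ = K.filter (fun x => x.1 ∈ Z) := ⟨_, rfl⟩
  have hE : (((SW n).filter (fun w => tr p (p + u) m (p + u + m + v) l w ∈ Z)).card : ℝ) ≤
      ∑ x ∈ KZ, H 0 x + (B1.card + B2.card) := by
    have hsub : (SW n).filter (fun w => tr p (p + u) m (p + u + m + v) l w ∈ Z) ⊆
        KZ.biUnion (fun x => Hd L p u m v l x 0) ∪ (B1 ∪ B2) := by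
      intro w hw
      rw [mem_filter] at hw
      obtain ⟨hw, hz⟩ := hw
      rw [mem_union, mem_union]
      by_cases h3 : w ∈ B1
      · exact Or.inr (Or.inl h3)
      by_cases h4 : w ∈ B2
      · exact Or.inr (Or.inr h4)
      left
      rw [hB1, mem_filter] at h3
      push Not at h3
      rw [hB2, mem_filter] at h4
      push Not at h4
      have g3 := h3 hw
      have g4 := h4 hw
      unfold GW at g3 g4
      have w3 := win_len hL (a := p) (b := p + u) (by omega) (by omega) hw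
      have w4 := win_len hL (a := p + u + m) (b := p + u + m + v) (by omega) (by omega) hw
      have e3 : p + u - p = u := by omega
      have e4 : p + u + m + v - (p + u + m) = v := by omega
      rw [e3] at g3 w3
      rw [e4] at g4 w4
      have hxK : κ w ∈ K := by
        rw [hK, mem_filter]
        refine ⟨mem_union_left _ (mem_image_of_mem _ hw), ?_⟩
        rw [hκ]
        simp only
        refine ⟨by omega, by omega, by omega, by omega, by omega, by omega⟩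
      rw [mem_biUnion]
      refine ⟨κ w, ?_, ?_⟩
      · rw [hKZ, mem_filter]
        refine ⟨hxK, ?_⟩
        rw [hκ]
        exact hz
      obtain ⟨q1, q2, q3⟩ := hKd 0 (by norm_num) _ hxK
      rw [Hd_mem hn q1 q2 q3, hκ]
      simp only [Nat.mul_zero, Nat.add_zero, Nat.sub_zero]
      exact ⟨hw, trivial, trivial, trivial, trivial, trivial⟩
    have h1 := (card_le_card hsub).trans (card_union_le _ _)
    have h2 := card_union_le B1 B2
    have h3 : (KZ.biUnion (fun x => Hd L p u m v l x 0)).card ≤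
        ∑ x ∈ KZ, (Hd L p u m v l x 0).card := card_biUnion_le
    have h4 : ((SW n).filter (fun w => tr p (p + u) m (p + u + m + v) l w ∈ Z)).card ≤
        ∑ x ∈ KZ, (Hd L p u m v l x 0).card + (B1.card + B2.card) := by omega
    have h5 : (((SW n).filter (fun w => tr p (p + u) m (p + u + m + v) l w ∈ Z)).card : ℝ) ≤
        ((∑ x ∈ KZ, (Hd L p u m v l x 0).card : ℕ) : ℝ) + (B1.card + B2.card) := by
      exact_mod_cast h4
    refine h5.trans (le_of_eq ?_)
    push_cast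
    congr 1
    exact Finset.sum_congr rfl (fun x _ => (hH 0 x).symm)
  have hEs : ∑ x ∈ KZ, H 1 x ≤
      (((SW n).filter (fun w => tr p (p + u + 2) m (p + u + m + v) l w ∈ Z)).card : ℝ) := by
    have h1 := dis (L := L) hn KZ 1 (fun x hx => hKd 1 (by norm_num) x (by
      rw [hKZ, mem_filter] at hx; exact hx.1)) Z (fun x hx => by
      rw [hKZ, mem_filter] at hx; exact hx.2)
    refine le_trans (le_of_eq ?_) h1
    exact Finset.sum_congr rfl (fun x _ => hH 1 x)
  -- the second moment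
  obtain ⟨y, hy⟩ : ∃ y : ℝ, y = 10 ^ 8 / M := ⟨_, rfl⟩
  have hy0 : 0 < y := by rw [hy]; positivity
  have hy1 : y ≤ 1 / 100 := by
    rw [hy, div_le_iff₀ hM]
    linarith
  obtain ⟨t, ht⟩ : ∃ t : ℝ, t = Real.sqrt (5 * y + 2 * β) := ⟨_, rfl⟩
  have ht0 : 0 < t := by rw [ht]; positivity
  have ht2 : t * t = 5 * y + 2 * β := by rw [ht]; exact Real.mul_self_sqrt (by positivity)
  obtain ⟨e, he⟩ : ∃ e : ℝ, e = (1 + y) ^ 4 := ⟨_, rfl⟩
  have he0 : 0 ≤ e := by rw [he]; positivity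
  have he1 : e ≤ 1 + 5 * y := by
    rw [he]
    have y2 : y ^ 2 ≤ y * (1 / 100) := by nlinarith
    have y3 : y ^ 3 ≤ y ^ 2 := by nlinarith [sq_nonneg y]
    have y4 : y ^ 4 ≤ y ^ 2 := by nlinarith [sq_nonneg y, sq_nonneg (y ^ 2)]
    nlinarith
  have hau : (u : ℝ) ≤ 10 ^ 8 * ((a : ℝ) - 2) := by
    have : u + 2 * 10 ^ 8 ≤ 10 ^ 8 * a := by omega
    have : (u : ℝ) + 2 * 10 ^ 8 ≤ 10 ^ 8 * a := by exact_mod_cast this
    linarith
  have hbv : (v : ℝ) ≤ 10 ^ 8 * ((b : ℝ) - 2) := by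
    have : v + 2 * 10 ^ 8 ≤ 10 ^ 8 * b := by omega
    have : (v : ℝ) + 2 * 10 ^ 8 ≤ 10 ^ 8 * b := by exact_mod_cast this
    linarith
  have hya : ∀ z : ℝ, (a : ℝ) - 2 ≤ z → 1 ≤ y * z := by
    intro z hz
    rw [hy, div_mul_eq_mul_div, le_div_iff₀ hM, one_mul]
    nlinarith
  have hyb : ∀ z : ℝ, (b : ℝ) - 2 ≤ z → 1 ≤ y * z := by
    intro z hz
    rw [hy, div_mul_eq_mul_div, le_div_iff₀ hM, one_mul]
    nlinarith
  have hpt : ∀ x ∈ K, 2 * |H 0 x - H 1 x| ≤ t * H 0 x + (H 0 x - 2 * H 1 x + e * H 2 x) / t := by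
    intro x hx
    obtain ⟨g1, g2, g3, g4, g5, g6⟩ := hKx x hx
    refine elem (hH0 0 x) (hH0 1 x) (hH0 2 x) ht0 ?_ he0
    rw [hH, hH, hH, he]
    have r3 : (a : ℝ) ≤ x.2.2.2.1 := by exact_mod_cast g3
    have r4 : (x.2.2.2.1 : ℝ) + a ≤ x.2.1.card := by exact_mod_cast g4
    have r5 : (b : ℝ) ≤ x.2.2.2.2 := by exact_mod_cast g5
    have r6 : (x.2.2.2.2 : ℝ) + b ≤ x.2.2.1.card := by exact_mod_cast g6
    exact lcH hc hL y hy0.le (hya _ (by linarith)) (by omega) (hya _ (by linarith)) (by omega)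
      (hyb _ (by linarith)) (by omega) (hyb _ (by linarith))
  have hS : ∑ x ∈ K, |H 0 x - H 1 x| ≤ t * c := by
    have h1 : 2 * ∑ x ∈ K, |H 0 x - H 1 x| ≤
        t * ∑ x ∈ K, H 0 x + (∑ x ∈ K, H 0 x - 2 * ∑ x ∈ K, H 1 x + e * ∑ x ∈ K, H 2 x) / t := by
      rw [Finset.mul_sum]
      refine (Finset.sum_le_sum hpt).trans (le_of_eq ?_)
      rw [Finset.sum_add_distrib, ← Finset.mul_sum, ← Finset.sum_div, Finset.sum_add_distrib,
        Finset.sum_sub_distrib, ← Finset.mul_sum, ← Finset.mul_sum]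
    have s0 := hsum 0 (by norm_num)
    have s2 := hsum 2 (by norm_num)
    have h2 : ∑ x ∈ K, H 0 x - 2 * ∑ x ∈ K, H 1 x + e * ∑ x ∈ K, H 2 x ≤
        (5 * y + 2 * β) * c := by
      have h3 : e * ∑ x ∈ K, H 2 x ≤ (1 + 5 * y) * c := by
        refine mul_le_mul he1 s2 (Finset.sum_nonneg (fun x _ => hH0 2 x)) (by positivity)
      have h4 : (B3.card : ℝ) + B4.card ≤ β * c := by linarith
      linarith
    have h5 : (∑ x ∈ K, H 0 x - 2 * ∑ x ∈ K, H 1 x + e * ∑ x ∈ K, H 2 x) / t ≤ t * c := by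
      rw [div_le_iff₀ ht0]
      calc _ ≤ (5 * y + 2 * β) * c := h2
        _ = t * c * t := by rw [← ht2]; ring
    have h6 : t * ∑ x ∈ K, H 0 x ≤ t * c := mul_le_mul_of_nonneg_left s0 ht0.le
    linarith
  have hZ : ∑ x ∈ KZ, H 0 x - ∑ x ∈ KZ, H 1 x ≤ t * c := by
    rw [← Finset.sum_sub_distrib]
    calc ∑ x ∈ KZ, (H 0 x - H 1 x) ≤ ∑ x ∈ KZ, |H 0 x - H 1 x| :=
          Finset.sum_le_sum (fun x _ => le_abs_self _)
      _ ≤ ∑ x ∈ K, |H 0 x - H 1 x| := by
          rw [hKZ]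
          exact Finset.sum_le_sum_of_subset_of_nonneg (filter_subset _ _)
            (fun x _ _ => abs_nonneg _)
      _ ≤ t * c := hS
  rw [← hy, ← ht]
  linarith

theorem mg (hc : S_CLW) (hsel : S_SEL2) (hoff : S_OFF) (hplq : S_PLQ) (hup : S_UP)
    (hfew : S_FEW) : S_MG := by
  obtain ⟨A, hA, hp⟩ := pick hsel hoff hplq hup hfew
  refine ⟨2 * A + 10, 1000000, by positivity, by norm_num,
    fun n p u m v l hn hn2 hu hv Z => ?_⟩
  have hn' : (2 : ℝ) ≤ n := by exact_mod_cast hn2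
  have hlog : (0.69 : ℝ) ≤ Real.log n := by
    have := Real.log_two_gt_d9
    have h3 : Real.log 2 ≤ Real.log n := Real.log_le_log (by norm_num) hn'
    linarith
  have hlog2 : (0.476 : ℝ) ≤ Real.log n ^ 2 := by nlinarith
  have hAl : 0 ≤ A * Real.log n ^ 2 := by positivity
  have hu4 : A * Real.log n ^ 2 + 4 ≤ u := by nlinarith
  have hv4 : A * Real.log n ^ 2 + 4 ≤ v := by nlinarith
  obtain ⟨M, hM⟩ : ∃ M : ℝ, M = min (u : ℝ) v := ⟨_, rfl⟩
  have hMu : M ≤ u := by rw [hM]; exact min_le_left _ _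
  have hMv : M ≤ v := by rw [hM]; exact min_le_right _ _
  have hM4 : 4 ≤ M := by rw [hM]; exact le_min (by linarith) (by linarith)
  have hv2 : 2 ≤ v := by
    have : (2 : ℝ) ≤ v := by linarith
    exact_mod_cast this
  obtain ⟨W, hW⟩ : ∃ W : Fin 4 → ℕ × ℕ, W = ![(p, p + u), (p + u + m, p + u + m + v),
    (p, p + u + 2), (p + u + m + 2, p + u + m + v)] := ⟨_, rfl⟩
  have W0 : W 0 = (p, p + u) := by rw [hW]; rfl
  have W1 : W 1 = (p + u + m, p + u + m + v) := by rw [hW]; rfl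
  have W2 : W 2 = (p, p + u + 2) := by rw [hW]; rfl
  have W3 : W 3 = (p + u + m + 2, p + u + m + v) := by rw [hW]; rfl
  have hun : (u : ℝ) ≤ n := by
    have : u ≤ n := by omega
    exact_mod_cast this
  obtain ⟨hlen, L, hL, hbad⟩ := hp n hn2 W (M / 2) (by linarith) (by linarith) (by
    intro t
    fin_cases t
    · show (W 0).1 ≤ (W 0).2 ∧ (W 0).2 ≤ n ∧ A * Real.log n ^ 2 ≤ ((W 0).2 : ℝ) - (W 0).1 ∧
        M / 2 ≤ (((W 0).2 - (W 0).1 : ℕ) : ℝ)
      rw [W0]
      have e : p + u - p = u := by omega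
      simp only
      rw [e]
      refine ⟨by omega, by omega, ?_, by linarith⟩
      push_cast; linarith
    · show (W 1).1 ≤ (W 1).2 ∧ (W 1).2 ≤ n ∧ A * Real.log n ^ 2 ≤ ((W 1).2 : ℝ) - (W 1).1 ∧
        M / 2 ≤ (((W 1).2 - (W 1).1 : ℕ) : ℝ)
      rw [W1]
      have e : p + u + m + v - (p + u + m) = v := by omega
      simp only
      rw [e]
      refine ⟨by omega, by omega, ?_, by linarith⟩
      push_cast; linarith
    · show (W 2).1 ≤ (W 2).2 ∧ (W 2).2 ≤ n ∧ A * Real.log n ^ 2 ≤ ((W 2).2 : ℝ) - (W 2).1 ∧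
        M / 2 ≤ (((W 2).2 - (W 2).1 : ℕ) : ℝ)
      rw [W2]
      have e : p + u + 2 - p = u + 2 := by omega
      simp only
      rw [e]
      refine ⟨by omega, by omega, ?_, by push_cast; linarith⟩
      push_cast; linarith
    · show (W 3).1 ≤ (W 3).2 ∧ (W 3).2 ≤ n ∧ A * Real.log n ^ 2 ≤ ((W 3).2 : ℝ) - (W 3).1 ∧
        M / 2 ≤ (((W 3).2 - (W 3).1 : ℕ) : ℝ)
      rw [W3]
      have e : p + u + m + v - (p + u + m + 2) = v - 2 := by omega
      simp only
      rw [e]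
      refine ⟨by omega, by omega, ?_, ?_⟩
      · push_cast; linarith
      · rw [Nat.cast_sub hv2]; push_cast; linarith)
  have hu10 : 10 ^ 10 ≤ u := by
    have := hlen 0
    rw [W0] at this
    simp only at this
    omega
  have hv10 : 10 ^ 10 ≤ v := by
    have := hlen 1
    rw [W1] at this
    simp only at this
    omega
  have hM10 : (10 : ℝ) ^ 10 ≤ M := by
    rw [hM]
    refine le_min ?_ ?_
    · exact_mod_cast hu10
    · exact_mod_cast hv10
  obtain ⟨β, hβ⟩ : ∃ β : ℝ, β = 2000000000 / (M / 2) := ⟨_, rfl⟩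
  have hβ0 : 0 < β := by rw [hβ]; positivity
  rw [Fin.sum_univ_four, W0, W1, W2, W3, ← hβ] at hbad
  simp only at hbad
  have key := fun Z => oneside hc hL hn hu10 hv10 (by linarith) hMu hMv hM10 hβ0 hbad Z
  obtain ⟨c, hcc⟩ : ∃ c : ℝ, c = ((SW n).card : ℝ) := ⟨_, rfl⟩
  have hc0 : 0 ≤ c := by rw [hcc]; positivity
  rw [← hcc] at key ⊢
  -- the constant
  obtain ⟨s, hs⟩ : ∃ s : ℝ, s = 1 / Real.sqrt M := ⟨_, rfl⟩
  have hM0 : 0 < M := by linarith
  have hsM : 0 < Real.sqrt M := Real.sqrt_pos.mpr hM0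
  have hs0 : 0 < s := by rw [hs]; positivity
  have hs2 : s ^ 2 = 1 / M := by
    rw [hs, div_pow, one_pow, Real.sq_sqrt hM0.le]
  have hs1 : s ≤ 1 / 100000 := by
    have : s ^ 2 ≤ (1 / 100000) ^ 2 := by
      rw [hs2, one_div, inv_le_comm₀ hM0 (by norm_num)]
      norm_num
      linarith
    nlinarith
  have hk1 : Real.sqrt (5 * (10 ^ 8 / M) + 2 * β) ≤ 200000 * s := by
    rw [Real.sqrt_le_left (by positivity)]
    have : (200000 * s) ^ 2 = 40000000000 * (1 / M) := by rw [mul_pow, hs2]; norm_num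
    rw [this, hβ]
    have e : 5 * (10 ^ 8 / M) + 2 * (2000000000 / (M / 2)) = 8500000000 * (1 / M) := by
      field_simp
      norm_num
    rw [e]
    have : 0 ≤ 1 / M := by positivity
    linarith
  have hk2 : β ≤ 100000 * s := by
    have e : β = 4000000000 * s ^ 2 := by
      rw [hs2, hβ]
      field_simp
      norm_num
    rw [e]
    nlinarith
  have hsuv : s ≤ 1 / Real.sqrt u + 1 / Real.sqrt v := by
    have hu0 : (0 : ℝ) < u := by linarith
    have hv0 : (0 : ℝ) < v := by linarith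
    rw [hs, hM]
    rcases le_total (u : ℝ) v with h | h
    · rw [min_eq_left h]
      have : 0 ≤ 1 / Real.sqrt v := by positivity
      linarith
    · rw [min_eq_right h]
      have : 0 ≤ 1 / Real.sqrt u := by positivity
      linarith
  have hbound : (Real.sqrt (5 * (10 ^ 8 / M) + 2 * β) + β) * c ≤
      1000000 * (1 / Real.sqrt u + 1 / Real.sqrt v) * c := by
    refine mul_le_mul_of_nonneg_right ?_ hc0
    linarith
  have k1 := (key Z).trans hbound
  obtain ⟨Z', hZ'⟩ : ∃ Z', Z' = Zᶜ := ⟨_, rfl⟩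
  have k2 := (key Z').trans hbound
  -- complements
  have hcomp : ∀ q, (((SW n).filter (fun w => tr p q m (p + u + m + v) l w ∈ Z)).card : ℝ) +
      (((SW n).filter (fun w => tr p q m (p + u + m + v) l w ∈ Z')).card : ℝ) = c := by
    intro q
    have h1 := Finset.card_filter_add_card_filter_not (s := SW n)
      (fun w => tr p q m (p + u + m + v) l w ∈ Z)
    have h2 : (SW n).filter (fun w => ¬ tr p q m (p + u + m + v) l w ∈ Z) =
        (SW n).filter (fun w => tr p q m (p + u + m + v) l w ∈ Z') := by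
      ext w
      rw [mem_filter, mem_filter, hZ', Set.mem_compl_iff]
    rw [h2] at h1
    rw [hcc]
    exact_mod_cast h1
  have c1 := hcomp (p + u)
  have c2 := hcomp (p + u + 2)
  rw [abs_le]
  constructor
  · linarith
  · linarith

end

end Pool.Agent.N929.EY
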